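import Pool.Agent.H5.EH.Defs

/-! [EH Idn] Write every cardinality as a sum of indicators over `Fin n` and compare pointwise (8 cases). -/

set_option autoImplicit false

namespace Pool.Agent.H5.EH

open Finset

theorem h47_card {n : ℕ} (S : Finset (Fin n)) : S.card = ∑ x : Fin n, (if x ∈ S then 1 else 0) := by
  simp

theorem id1 {n : ℕ} (S A B : Finset (Fin n)) :
    (A ∩ B).card + (S \ A).card + (S \ B).card = S.card + (symmDiff A S ∩ symmDiff B S).card := by
  rw [h47_card (A ∩ B), h47_card (S \ A), h47_card (S \ B), h47_card S,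
    h47_card (symmDiff A S ∩ symmDiff B S), ← sum_add_distrib, ← sum_add_distrib,
    ← sum_add_distrib]
  refine sum_congr rfl fun x _ => ?_
  simp only [mem_inter, mem_sdiff, mem_symmDiff]
  by_cases hA : x ∈ A <;> by_cases hB : x ∈ B <;> by_cases hS : x ∈ S <;> simp [hA, hB, hS]

theorem id2 {n : ℕ} (S A B : Finset (Fin n)) :
    (A ∪ B).card + (symmDiff A S ∩ symmDiff B S).card = S.card + (A \ S).card + (B \ S).card := by
  rw [h47_card (A ∪ B), h47_card (symmDiff A S ∩ symmDiff B S), h47_card S, h47_card (A \ S),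
    h47_card (B \ S), ← sum_add_distrib, ← sum_add_distrib, ← sum_add_distrib]
  refine sum_congr rfl fun x _ => ?_
  simp only [mem_union, mem_inter, mem_sdiff, mem_symmDiff]
  by_cases hA : x ∈ A <;> by_cases hB : x ∈ B <;> by_cases hS : x ∈ S <;> simp [hA, hB, hS]

theorem card_dev {n : ℕ} (S A : Finset (Fin n)) :
    (symmDiff A S).card = (S \ A).card + (A \ S).card := by
  rw [h47_card (symmDiff A S), h47_card (S \ A), h47_card (A \ S), ← sum_add_distrib]
  refine sum_congr rfl fun x _ => ?_
  simp only [mem_sdiff, mem_symmDiff]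
  by_cases hA : x ∈ A <;> by_cases hS : x ∈ S <;> simp [hA, hS]

/-- change of the centre -/
theorem chg {n : ℕ} (S C : Finset (Fin n)) (F : Finset (Finset (Fin n))) (x : ℕ × ℕ)
    (hC : ∀ A ∈ ty S F x, C ⊆ symmDiff A S) (hne : (ty S F x).Nonempty) :
    (C ∩ S).card ≤ x.1 ∧ (C \ S).card ≤ x.2 ∧
      ty S F x ⊆ ty (symmDiff S C) F (x.1 - (C ∩ S).card, x.2 - (C \ S).card) := by
  have key : ∀ A ∈ ty S F x, C ∩ S ⊆ S \ A ∧ C \ S ⊆ A \ S := by
    intro A hA
    have h := hC A hA
    constructor
    · intro e he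
      rw [mem_inter] at he
      have h1 := h he.1
      rw [mem_symmDiff] at h1
      rw [mem_sdiff]
      tauto
    · intro e he
      rw [mem_sdiff] at he
      have h1 := h he.1
      rw [mem_symmDiff] at h1
      rw [mem_sdiff]
      tauto
  obtain ⟨A0, hA0⟩ := hne
  have hk := key A0 hA0
  have hA0' := hA0
  rw [ty, mem_filter] at hA0'
  refine ⟨?_, ?_, ?_⟩
  · rw [← hA0'.2.1]
    exact card_le_card hk.1
  · rw [← hA0'.2.2]
    exact card_le_card hk.2
  · intro A hA
    obtain ⟨k1, k2⟩ := key A hA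
    have h := hC A hA
    have hA' := hA
    rw [ty, mem_filter] at hA'
    obtain ⟨hAF, h1, h2⟩ := hA'
    rw [ty, mem_filter]
    refine ⟨hAF, ?_, ?_⟩
    · have e1 : symmDiff S C \ A = (S \ A) \ (C ∩ S) := by
        ext e
        simp only [mem_sdiff, mem_symmDiff, mem_inter]
        have h3 : e ∈ C → e ∈ symmDiff A S := fun he => h he
        rw [mem_symmDiff] at h3
        tauto
      rw [e1, card_sdiff_of_subset k1, h1]
    · have e1 : A \ symmDiff S C = (A \ S) \ (C \ S) := by
        ext e
        simp only [mem_sdiff, mem_symmDiff]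
        have h3 : e ∈ C → e ∈ symmDiff A S := fun he => h he
        rw [mem_symmDiff] at h3
        tauto
      rw [e1, card_sdiff_of_subset k2, h2]

theorem chg_card {n : ℕ} (S C : Finset (Fin n)) :
    (symmDiff S C).card + (C ∩ S).card = S.card + (C \ S).card := by
  rw [h47_card (symmDiff S C), h47_card (C ∩ S), h47_card S, h47_card (C \ S),
    ← sum_add_distrib, ← sum_add_distrib]
  refine sum_congr rfl fun x _ => ?_
  simp only [mem_inter, mem_sdiff, mem_symmDiff]
  by_cases hC : x ∈ C <;> by_cases hS : x ∈ S <;> simp [hC, hS]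

end Pool.Agent.H5.EH
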