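import Pool.Agent.H5.EH.Defs
import Pool.Agent.H5.EH.Idn

/-!
[EH Ball] `A ↦ (S \ A, A \ S)` is a bijection from the subsets of `Fin n` to the pairs (subset of `S`, subset of `Sᶜ`).
-/

set_option autoImplicit false

namespace Pool.Agent.H5.EH

open Finset

theorem h47_pw {n : ℕ} (S : Finset (Fin n)) (p : ℕ) :
    (S.powerset.filter fun X => X.card ≤ p).card = K S.card p := by
  have e : (S.powerset.filter fun X => X.card ≤ p) =
      (range (p + 1)).biUnion fun i => powersetCard i S := by
    ext X
    simp only [mem_filter, mem_powerset, mem_biUnion, mem_range, mem_powersetCard]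
    constructor
    · rintro ⟨h1, h2⟩
      exact ⟨X.card, Nat.lt_succ_of_le h2, h1, rfl⟩
    · rintro ⟨i, hi, h1, h2⟩
      exact ⟨h1, by omega⟩
  rw [e, card_biUnion, K]
  · exact sum_congr rfl fun i _ => by rw [card_powersetCard]
  · intro i _ j _ hij
    exact pairwise_disjoint_powersetCard S hij

theorem ball (n : ℕ) (S : Finset (Fin n)) (p q : ℕ) :
    (univ.filter fun A : Finset (Fin n) => (S \ A).card ≤ p ∧ (A \ S).card ≤ q).card =
      K S.card p * K (n - S.card) q := by
  have hc : (Sᶜ).card = n - S.card := by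
    rw [card_compl, Fintype.card_fin]
  rw [← hc, ← h47_pw S p, ← h47_pw Sᶜ q, ← card_product]
  refine card_nbij' (fun A => (S \ A, A \ S)) (fun P => (S \ P.1) ∪ P.2) ?_ ?_ ?_ ?_
  · intro A hA
    simp only [coe_filter, mem_univ, true_and, Set.mem_setOf_eq] at hA
    simp only [coe_product, Set.mem_prod, mem_coe, mem_filter, mem_powerset]
    refine ⟨⟨sdiff_subset, hA.1⟩, ?_, hA.2⟩
    intro x hx
    rw [mem_sdiff] at hx
    exact mem_compl.2 hx.2
  · rintro ⟨X, Y⟩ hXY
    simp only [coe_product, Set.mem_prod, mem_coe, mem_filter, mem_powerset] at hXY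
    obtain ⟨⟨h1, h2⟩, h3, h4⟩ := hXY
    have e1 : S \ ((S \ X) ∪ Y) = X := by
      ext x
      have a := @h1 x
      have b := @h3 x
      simp only [mem_sdiff, mem_union, mem_compl] at *
      tauto
    have e2 : ((S \ X) ∪ Y) \ S = Y := by
      ext x
      have a := @h1 x
      have b := @h3 x
      simp only [mem_sdiff, mem_union, mem_compl] at *
      tauto
    simp only [coe_filter, mem_univ, true_and, Set.mem_setOf_eq]
    rw [e1, e2]
    exact ⟨h2, h4⟩
  · intro A _
    ext x
    simp only [mem_sdiff, mem_union]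
    tauto
  · rintro ⟨X, Y⟩ hXY
    simp only [coe_product, Set.mem_prod, mem_coe, mem_filter, mem_powerset] at hXY
    obtain ⟨⟨h1, h2⟩, h3, h4⟩ := hXY
    have e1 : S \ ((S \ X) ∪ Y) = X := by
      ext x
      have a := @h1 x
      have b := @h3 x
      simp only [mem_sdiff, mem_union, mem_compl] at *
      tauto
    have e2 : ((S \ X) ∪ Y) \ S = Y := by
      ext x
      have a := @h1 x
      have b := @h3 x
      simp only [mem_sdiff, mem_union, mem_compl] at *
      tauto
    simp only [e1, e2]

theorem tyc (n : ℕ) (S : Finset (Fin n)) (F : Finset (Finset (Fin n))) (x : ℕ × ℕ) :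
    (ty S F x).card ≤ S.card.choose x.1 * (n - S.card).choose x.2 := by
  have hc : (Sᶜ).card = n - S.card := by
    rw [card_compl, Fintype.card_fin]
  rw [← hc, ← card_powersetCard, ← card_powersetCard, ← card_product]
  refine card_le_card_of_injOn (fun A => (S \ A, A \ S)) ?_ ?_
  · intro A hA
    have hA' : A ∈ ty S F x := hA
    rw [ty, mem_filter] at hA'
    simp only [coe_product, Set.mem_prod, mem_coe, mem_powersetCard]
    refine ⟨⟨sdiff_subset, hA'.2.1⟩, ?_, hA'.2.2⟩
    intro y hy
    rw [mem_sdiff] at hy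
    exact mem_compl.2 hy.2
  · intro A _ B _ hAB
    have h1 : S \ A = S \ B := congrArg Prod.fst hAB
    have h2 : A \ S = B \ S := congrArg Prod.snd hAB
    ext y
    have a := Finset.ext_iff.1 h1 y
    have b := Finset.ext_iff.1 h2 y
    simp only [mem_sdiff] at a b
    tauto

/-- the extremal families -/
theorem fam (t s r u : ℕ) (hu : u ≤ r) : ∃ F : Finset (Finset (Fin (t + s + 2 * r))),
    F.card = K (t + 2 * u) u * K (s + 2 * (r - u)) (r - u) ∧ Cr (t + s + 2 * r) t r F F := by
  obtain ⟨S, -, hS⟩ := exists_subset_card_eq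
    (show t + 2 * u ≤ (univ : Finset (Fin (t + s + 2 * r))).card by
      rw [card_univ, Fintype.card_fin]; omega)
  refine ⟨univ.filter fun A : Finset (Fin (t + s + 2 * r)) =>
    (S \ A).card ≤ u ∧ (A \ S).card ≤ r - u, ?_, ?_⟩
  · rw [ball, hS]
    have e : t + s + 2 * r - (t + 2 * u) = s + 2 * (r - u) := by omega
    rw [e]
  · intro A hA B hB
    rw [mem_filter] at hA hB
    have h1 := id1 S A B
    have h2 := id2 S A B
    have h3 := hA.2
    have h4 := hB.2
    omega

end Pool.Agent.H5.EH
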