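import Pool.Agent.H5.EG.Sup

/-!
[EH Cen] PROOF. `|X| ≤ n^(a-k)`, `|Y| ≤ n^(b-k)` (`sup_pow`), `k ≤ a`, `k ≤ b`, `(a-k) + (b-k) = 2r`. The members `A` of `X` which meet
`C \ E` contain `insert c E` for some `c ∈ C \ E`: `n * #(these) ≤ k * n^(a-k)`; if these were all of `X`, then
`n |X| |Y| ≤ k n^(2r)`, against `hbig` (`k ≤ l`). So some `A ∈ X` has `A ∩ C ⊆ E`. In the same way some `B ∈ Y` has
`(B \ C) ∩ A = ∅` (else `n |Y| ≤ |A| n^(b-k)`, `|A| = a ≤ l`). Then `A ∩ B ⊆ C ∩ E`, so `k ≤ |C ∩ E|` and `C = E`.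
-/

set_option autoImplicit false

namespace Pool.Agent.H5.EH

open Finset

private lemma h51_meet (n a k : ℕ) (hn : 1 ≤ n) (X : Finset (Finset (Fin n)))
    (hX : ∀ A ∈ X, A.card = a) (E D : Finset (Fin n)) (hE : E.card = k) (hEX : ∀ A ∈ X, E ⊆ A)
    (hDE : Disjoint D E) (hall : ∀ A ∈ X, ∃ c ∈ D, c ∈ A) (hne : X.Nonempty) :
    n * X.card ≤ D.card * n ^ (a - k) := by
  classical
  have hins : ∀ c ∈ D, (insert c E).card = k + 1 := by
    intro c hc
    rw [card_insert_of_notMem (Finset.disjoint_left.1 hDE hc), hE]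
  have hka : k + 1 ≤ a := by
    obtain ⟨A, hA⟩ := hne
    obtain ⟨c, hc, hcA⟩ := hall A hA
    have h := card_le_card (insert_subset hcA (hEX A hA))
    rwa [hins c hc, hX A hA] at h
  have h1 : X ⊆ D.biUnion fun c => X.filter fun A => insert c E ⊆ A := by
    intro A hA
    obtain ⟨c, hc, hcA⟩ := hall A hA
    exact mem_biUnion.2 ⟨c, hc, mem_filter.2 ⟨hA, insert_subset hcA (hEX A hA)⟩⟩
  have h2 : X.card ≤ D.card * n ^ (a - (k + 1)) := by
    refine (card_le_card h1).trans (card_biUnion_le_card_mul _ _ _ fun c hc => ?_)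
    refine Pool.Agent.H5.EG.sup_pow n a (k + 1) hn (insert c E) (hins c hc).ge _ fun A hA => ?_
    exact ⟨(mem_filter.1 hA).2, hX A (mem_filter.1 hA).1⟩
  have h3 : n * n ^ (a - (k + 1)) = n ^ (a - k) := by
    rw [← pow_succ']
    congr 1
    omega
  calc n * X.card ≤ n * (D.card * n ^ (a - (k + 1))) := Nat.mul_le_mul_left _ h2
    _ = D.card * (n * n ^ (a - (k + 1))) := by ring
    _ = D.card * n ^ (a - k) := by rw [h3]

theorem cen (n l r a b k : ℕ) (hn : 1 ≤ n) (X Y : Finset (Finset (Fin n))) (hX : ∀ A ∈ X, A.card = a)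
    (hY : ∀ B ∈ Y, B.card = b) (ha : a ≤ l) (hb : b ≤ l) (hab : a + b = 2 * r + 2 * k)
    (C E : Finset (Fin n)) (hC : C.card = k) (hE : E.card = k) (hCY : ∀ B ∈ Y, C ⊆ B) (hEX : ∀ A ∈ X, E ⊆ A)
    (hk : ∀ A ∈ X, ∀ B ∈ Y, k ≤ (A ∩ B).card) (hbig : l * n ^ (2 * r) < n * (X.card * Y.card)) : C = E := by
  classical
  have hXne : X.Nonempty := by
    rw [← card_pos]
    rcases Nat.eq_zero_or_pos X.card with h | h
    · rw [h, zero_mul, mul_zero] at hbig
      exact absurd hbig (Nat.not_lt_zero _)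
    · exact h
  have hYne : Y.Nonempty := by
    rw [← card_pos]
    rcases Nat.eq_zero_or_pos Y.card with h | h
    · rw [h, mul_zero, mul_zero] at hbig
      exact absurd hbig (Nat.not_lt_zero _)
    · exact h
  have hka : k ≤ a := by
    obtain ⟨A, hA⟩ := hXne
    have h := card_le_card (hEX A hA)
    rwa [hE, hX A hA] at h
  have hkb : k ≤ b := by
    obtain ⟨B, hB⟩ := hYne
    have h := card_le_card (hCY B hB)
    rwa [hC, hY B hB] at h
  have hpow : n ^ (a - k) * n ^ (b - k) = n ^ (2 * r) := by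
    rw [← pow_add]
    congr 1
    omega
  have hXc : X.card ≤ n ^ (a - k) :=
    Pool.Agent.H5.EG.sup_pow n a k hn E hE.ge X fun A hA => ⟨hEX A hA, hX A hA⟩
  have hYc : Y.card ≤ n ^ (b - k) :=
    Pool.Agent.H5.EG.sup_pow n b k hn C hC.ge Y fun B hB => ⟨hCY B hB, hY B hB⟩
  -- some `A` does not meet `C \ E`
  obtain ⟨A, hA, hAC⟩ : ∃ A ∈ X, ∀ c ∈ C \ E, c ∉ A := by
    by_contra hcon
    push Not at hcon
    have h1 := h51_meet n a k hn X hX E (C \ E) hE hEX sdiff_disjoint hcon hXne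
    have h2 : (C \ E).card ≤ l := (card_le_card sdiff_subset).trans (by rw [hC]; exact hka.trans ha)
    have h3 : n * (X.card * Y.card) ≤ l * n ^ (2 * r) := by
      calc n * (X.card * Y.card) = (n * X.card) * Y.card := by ring
        _ ≤ ((C \ E).card * n ^ (a - k)) * n ^ (b - k) := Nat.mul_le_mul h1 hYc
        _ ≤ (l * n ^ (a - k)) * n ^ (b - k) :=
          Nat.mul_le_mul_right _ (Nat.mul_le_mul_right _ h2)
        _ = l * n ^ (2 * r) := by rw [mul_assoc, hpow]
    exact absurd hbig (not_lt.2 h3)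
  -- some `B` does not meet `A \ C`
  obtain ⟨B, hB, hBA⟩ : ∃ B ∈ Y, ∀ c ∈ A \ C, c ∉ B := by
    by_contra hcon
    push Not at hcon
    have h1 := h51_meet n b k hn Y hY C (A \ C) hC hCY sdiff_disjoint hcon hYne
    have h2 : (A \ C).card ≤ l := (card_le_card sdiff_subset).trans (by rw [hX A hA]; exact ha)
    have h3 : n * (X.card * Y.card) ≤ l * n ^ (2 * r) := by
      calc n * (X.card * Y.card) = X.card * (n * Y.card) := by ring
        _ ≤ n ^ (a - k) * ((A \ C).card * n ^ (b - k)) := Nat.mul_le_mul hXc h1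
        _ ≤ n ^ (a - k) * (l * n ^ (b - k)) :=
          Nat.mul_le_mul_left _ (Nat.mul_le_mul_right _ h2)
        _ = l * (n ^ (a - k) * n ^ (b - k)) := by ring
        _ = l * n ^ (2 * r) := by rw [hpow]
    exact absurd hbig (not_lt.2 h3)
  have hsub : A ∩ B ⊆ C ∩ E := by
    intro x hx
    rw [mem_inter] at hx
    have hxC : x ∈ C := by
      by_contra h
      exact hBA x (mem_sdiff.2 ⟨hx.1, h⟩) hx.2
    have hxE : x ∈ E := by
      by_contra h
      exact hAC x (mem_sdiff.2 ⟨hxC, h⟩) hx.1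
    exact mem_inter.2 ⟨hxC, hxE⟩
  have hcard : k ≤ (C ∩ E).card := (hk A hA B hB).trans (card_le_card hsub)
  have e1 : C ∩ E = C := eq_of_subset_of_card_le inter_subset_left (by rw [hC]; exact hcard)
  have e2 : C ∩ E = E := eq_of_subset_of_card_le inter_subset_right (by rw [hE]; exact hcard)
  rw [← e1, e2]

end Pool.Agent.H5.EH
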