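import Mathlib

/-!
# EvenGaps, full form (MP_633f17, helper5). PROOF of the whole theorem.

`n = t + s + 2r`, `F, G` with `|A ∩ B| ≥ t`, `|A ∪ B| ≤ t + 2r`. Centre `S`, deviation `dev A = A ∆ S`, type of `A`: `(|S \ A|, |A \ S|)`.
(id1), (id2): for `|S| = t + i`, `i + j = 2r`, `A` and `B` of types `x`, `y` are compatible iff
`|dev A ∩ dev B| ≥ max(x.1 + y.1 - i, x.2 + y.2 - j)`. Covers (`H5.EG.lev1`, `lev2`) then give: `n |F_x| |G_y| ≤ Q² n^(2r)` unless
`x.1 + y.1 = i + k`, `x.2 + y.2 = j + k` and all `dev A` (all `dev B`) contain a set `E` (`C`) with `k` elements (`Pair`).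
If `|F||G| > M²`, `M = max_u K(t+2u,u) K(s+2(r-u),r-u) ≥ c n^r`, a dominant pair `(x, y)` of types is of the second kind, `C = E`
(`Cen`); with the new centre `S ∆ C` we get `k = 0` (`Chg`). All other types are negligible (`Dom`). Unbalanced types
contradict `M² ≥ R` (`Num`), balanced ones are almost full, so all of `F` and `G` lies in balls (`Str`), and the product of the balls
is at most `M²` by log-concavity of the partial binomial sums (`LC`).
-/

set_option autoImplicit false

namespace Pool.Agent.H5.EH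

open Finset

/-- partial sums of binomial coefficients -/
def K (N v : ℕ) : ℕ := ∑ i ∈ range (v + 1), N.choose i

/-- the members of `F` of type `x` at the centre `S` -/
def ty {n : ℕ} (S : Finset (Fin n)) (F : Finset (Finset (Fin n))) (x : ℕ × ℕ) :
    Finset (Finset (Fin n)) :=
  F.filter fun A => (S \ A).card = x.1 ∧ (A \ S).card = x.2

/-- `|A ∩ B| ≥ t` and `|A ∪ B| ≤ t + 2r` for all `A ∈ F`, `B ∈ G` -/
def Cr (n t r : ℕ) (F G : Finset (Finset (Fin n))) : Prop :=
  ∀ A ∈ F, ∀ B ∈ G, t ≤ (A ∩ B).card ∧ (A ∪ B).card ≤ t + 2 * r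

end Pool.Agent.H5.EH
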