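import Pool.Agent.H5.EH.Defs

/-!
[EH LC] PROOF. `K N (v-1) * K N (v+1) ≤ K N v ^ 2` (partial sums of a log-concave sequence: the binomial coefficients satisfy
`C(N,a) C(N,b+1) ≤ C(N,a+1) C(N,b)` for `a ≤ b`; sum over `a`), `K (N+1) v = K N v + K N (v-1)`. With these `lc` is equivalent to that
inequality. `bal`: `i = x1 + y1` even: `x1 = y1 = u`, `x2 = y2 = r - u`, the product is `e_u ^ 2`. `i` odd: `{x1,y1} = {u,u+1}`,
`{x2,y2} = {v,v+1}`, `u + v + 1 = r`; by `lc` twice the product is at most `e_u * e_(u+1)`,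
`e_u = K (t+2u) u * K (s+2(r-u)) (r-u)`.
-/

set_option autoImplicit false

namespace Pool.Agent.H5.EH

theorem lc_choose (N : ℕ) {i v : ℕ} (h : i ≤ v) :
    N.choose i * N.choose (v + 1) ≤ N.choose (i + 1) * N.choose v := by
  have h1 := Nat.choose_succ_right_eq N v
  have h2 := Nat.choose_succ_right_eq N i
  have h3 : (N - v) * (i + 1) ≤ (N - i) * (v + 1) := Nat.mul_le_mul (by omega) (by omega)
  refine Nat.le_of_mul_le_mul_right ?_ (show 0 < (i + 1) * (v + 1) by positivity)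
  calc N.choose i * N.choose (v + 1) * ((i + 1) * (v + 1))
      = N.choose i * (N.choose (v + 1) * (v + 1)) * (i + 1) := by ring
    _ = N.choose i * N.choose v * ((N - v) * (i + 1)) := by rw [h1]; ring
    _ ≤ N.choose i * N.choose v * ((N - i) * (v + 1)) := Nat.mul_le_mul_left _ h3
    _ = (N.choose i * (N - i)) * N.choose v * (v + 1) := by ring
    _ = (N.choose (i + 1) * (i + 1)) * N.choose v * (v + 1) := by rw [h2]
    _ = N.choose (i + 1) * N.choose v * ((i + 1) * (v + 1)) := by ring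

theorem lc_K_succ (N v : ℕ) : K N (v + 1) = K N v + N.choose (v + 1) := by
  unfold K
  rw [Finset.sum_range_succ _ (v + 1)]

theorem lc_K_zero (N : ℕ) : K N 0 = 1 := by
  unfold K
  rw [Finset.sum_range_one, Nat.choose_zero_right]

theorem lc_pascal (N v : ℕ) : K (N + 1) (v + 1) = K N (v + 1) + K N v := by
  induction v with
  | zero =>
    rw [lc_K_succ, lc_K_succ, lc_K_zero, lc_K_zero, Nat.choose_succ_succ', Nat.choose_zero_right]
    omega
  | succ v ih =>
    rw [lc_K_succ, ih, lc_K_succ N (v + 1), Nat.choose_succ_succ', lc_K_succ N v]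
    omega

/-- `K N v * C(N, v + 1) ≤ C(N, v) * K N (v + 1)` -/
theorem lc_sum (N v : ℕ) : K N v * N.choose (v + 1) ≤ N.choose v * K N (v + 1) := by
  have h1 : K N v * N.choose (v + 1) ≤ ∑ i ∈ Finset.range (v + 1), N.choose (i + 1) * N.choose v := by
    unfold K
    rw [Finset.sum_mul]
    exact Finset.sum_le_sum fun i hi => lc_choose N (Nat.lt_succ_iff.1 (Finset.mem_range.1 hi))
  have h2 : K N (v + 1) = (∑ i ∈ Finset.range (v + 1), N.choose (i + 1)) + 1 := by
    unfold K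
    rw [Finset.sum_range_succ' _ (v + 1), Nat.choose_zero_right]
  rw [h2, mul_add, Finset.mul_sum]
  refine h1.trans ?_
  refine le_trans (le_of_eq ?_) (Nat.le_add_right _ _)
  exact Finset.sum_congr rfl fun i _ => mul_comm _ _

theorem lc_logc (N w : ℕ) : K N w * K N (w + 2) ≤ K N (w + 1) ^ 2 := by
  have h1 := lc_sum N (w + 1)
  have h2 := lc_K_succ N w
  have h3 := lc_K_succ N (w + 1)
  have e : w + 1 + 1 = w + 2 := rfl
  rw [e] at h1 h3
  generalize K N w = a at h2 ⊢
  generalize K N (w + 1) = b at h1 h2 h3 ⊢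
  generalize K N (w + 2) = c at h1 h3 ⊢
  generalize N.choose (w + 1) = x at h1 h2
  generalize N.choose (w + 2) = y at h1 h3
  subst h3
  subst h2
  nlinarith

theorem lc (N v : ℕ) : K (N + 1) v * K (N + 1) (v + 1) ≤ K N v * K (N + 2) (v + 1) := by
  rcases v with _ | w
  · rw [lc_pascal (N + 1) 0, lc_K_zero, lc_K_zero, one_mul, one_mul]
    omega
  · have h1 := lc_logc N w
    rw [lc_pascal (N + 1) (w + 1), lc_pascal N (w + 1), lc_pascal N w]
    have e : w + 1 + 1 = w + 2 := rfl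
    rw [e]
    generalize K N w = a at h1 ⊢
    generalize K N (w + 1) = b at h1 ⊢
    generalize K N (w + 2) = c at h1 ⊢
    nlinarith

theorem bal (t s r x1 y1 x2 y2 M : ℕ) (h : x1 + y1 + (x2 + y2) = 2 * r) (h1 : x1 ≤ y1 + 1) (h2 : y1 ≤ x1 + 1)
    (h3 : x2 ≤ y2 + 1) (h4 : y2 ≤ x2 + 1)
    (hM : ∀ u ≤ r, K (t + 2 * u) u * K (s + 2 * (r - u)) (r - u) ≤ M) :
    (K (t + (x1 + y1)) x1 * K (s + (x2 + y2)) x2) * (K (t + (x1 + y1)) y1 * K (s + (x2 + y2)) y2) ≤ M ^ 2 := by
  -- the two orders of two numbers `u`, `u + 1`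
  have key : ∀ a b N : ℕ, a ≤ b + 1 → b ≤ a + 1 → a ≠ b → ∃ u, a + b = 2 * u + 1 ∧
      K (N + (a + b)) a * K (N + (a + b)) b ≤ K (N + 2 * u) u * K (N + 2 * (u + 1)) (u + 1) := by
    intro a b N ha hb hab
    rcases Nat.lt_or_gt_of_ne hab with hlt | hlt
    · have hb' : b = a + 1 := by omega
      subst hb'
      refine ⟨a, by omega, ?_⟩
      have e1 : N + (a + (a + 1)) = N + 2 * a + 1 := by omega
      have e2 : N + 2 * (a + 1) = N + 2 * a + 2 := by omega
      rw [e1, e2]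
      exact lc (N + 2 * a) a
    · have ha' : a = b + 1 := by omega
      subst ha'
      refine ⟨b, by omega, ?_⟩
      have e1 : N + (b + 1 + b) = N + 2 * b + 1 := by omega
      have e2 : N + 2 * (b + 1) = N + 2 * b + 2 := by omega
      rw [e1, e2, mul_comm]
      exact lc (N + 2 * b) b
  by_cases hxy : x1 = y1
  · have hxy2 : x2 = y2 := by omega
    subst hxy
    subst hxy2
    have e1 : x1 + x1 = 2 * x1 := by omega
    have e2 : x2 + x2 = 2 * (r - x1) := by omega
    have e3 : x2 = r - x1 := by omega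
    have h5 := hM x1 (by omega)
    rw [e1, e2, e3, pow_two]
    exact Nat.mul_le_mul h5 h5
  · have hxy2 : x2 ≠ y2 := by omega
    obtain ⟨u, hu1, hu2⟩ := key x1 y1 t h1 h2 hxy
    obtain ⟨v, hv1, hv2⟩ := key x2 y2 s h3 h4 hxy2
    have h5 := hM u (by omega)
    have h6 := hM (u + 1) (by omega)
    have e1 : r - u = v + 1 := by omega
    have e2 : r - (u + 1) = v := by omega
    rw [e1] at h5
    rw [e2] at h6
    calc (K (t + (x1 + y1)) x1 * K (s + (x2 + y2)) x2) * (K (t + (x1 + y1)) y1 * K (s + (x2 + y2)) y2)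
        = (K (t + (x1 + y1)) x1 * K (t + (x1 + y1)) y1) * (K (s + (x2 + y2)) x2 * K (s + (x2 + y2)) y2) := by
          ring
      _ ≤ (K (t + 2 * u) u * K (t + 2 * (u + 1)) (u + 1)) * (K (s + 2 * v) v * K (s + 2 * (v + 1)) (v + 1)) :=
          Nat.mul_le_mul hu2 hv2
      _ = (K (t + 2 * u) u * K (s + 2 * (v + 1)) (v + 1)) * (K (t + 2 * (u + 1)) (u + 1) * K (s + 2 * v) v) := by
          ring
      _ ≤ M * M := Nat.mul_le_mul h5 h6
      _ = M ^ 2 := (pow_two M).symm

end Pool.Agent.H5.EH
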