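import Mathlib

/-!
[EH Num] Large `n`. Write `i = x1 + y1`, `j = x2 + y2`, `i + j = 2r`, `a = x1 + x2`, `b = y1 + y2`, `Cx = C(N1,x1) C(N2,x2)`,
`Cy = C(N1,y1) C(N2,y2)`. The hypothesis `n^(2r) ≤ L N1^i N2^j` gives `N1 ≥ n/L` if `i > 0` and `N2 ≥ n/L` if `j > 0`. Hence for all
exponents `p ≤ i`: `N1^p/p! (1 - c/n) ≤ C(N1,p) ≤ N1^p/p!` (`p ≤ 2r`, `c = c(r,L)`; for `i = 0` trivial), the same for `N2`, and
`Cx ≥ c' n^a`, `Cy ≥ c' n^b`.
`num1` (types not balanced): left side `≤ n² N1^i N2^j / (x1! y1! x2! y2!) (1 + O(1/n))`, right side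
`≥ n² N1^i N2^j / ((i/2)! ((i+1)/2)! (j/2)! ((j+1)/2)!) (1 - O(1/n))`, and `x1! y1! > (i/2)! ((i+1)/2)!` if `|x1 - y1| ≥ 2`, `≥` always.
`num2`: `n² Cx Cy ≤ (n f + P n^a)(n Cy + P n^b)` gives `n (Cx - f) ≤ P n^a + (n Cx + P n^a) P n^b / (n Cy) ≤ P' n^a`, and
`(P' + l) n^a < n Cx` for large `n`.
-/

set_option autoImplicit false

namespace Pool.Agent.H5.EH

open Filter Topology

private lemma h92_mid (x y : ℕ) : ((x + y) / 2).factorial * ((x + y + 1) / 2).factorial ≤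
    x.factorial * y.factorial := by
  have h1 := Nat.choose_mul_factorial_mul_factorial (n := x + y) (k := x) (by omega)
  have h2 := Nat.choose_mul_factorial_mul_factorial (n := x + y) (k := (x + y) / 2) (by omega)
  have h3 := Nat.choose_le_middle x (x + y)
  have e1 : x + y - x = y := by omega
  have e2 : x + y - (x + y) / 2 = (x + y + 1) / 2 := by omega
  rw [e1] at h1
  rw [e2] at h2
  have h4 : 0 < (x + y).choose x := Nat.choose_pos (by omega)
  refine Nat.le_of_mul_le_mul_left ?_ h4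
  calc (x + y).choose x * (((x + y) / 2).factorial * ((x + y + 1) / 2).factorial)
      ≤ (x + y).choose ((x + y) / 2) * (((x + y) / 2).factorial * ((x + y + 1) / 2).factorial) :=
        Nat.mul_le_mul_right _ h3
    _ = (x + y).choose x * (x.factorial * y.factorial) := by
        rw [← mul_assoc, h2, ← mul_assoc, h1]

private lemma h92_mid_lt {x y : ℕ} (h : x + 2 ≤ y) :
    ((x + y) / 2).factorial * ((x + y + 1) / 2).factorial < x.factorial * y.factorial := by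
  obtain ⟨z, rfl⟩ : ∃ z, y = z + 1 := ⟨y - 1, by omega⟩
  have h1 := h92_mid (x + 1) z
  have e1 : x + 1 + z = x + (z + 1) := by omega
  rw [e1] at h1
  refine h1.trans_lt ?_
  rw [Nat.factorial_succ x, Nat.factorial_succ z]
  have h2 : 0 < x.factorial * z.factorial := Nat.mul_pos (Nat.factorial_pos _) (Nat.factorial_pos _)
  calc (x + 1) * x.factorial * z.factorial = (x + 1) * (x.factorial * z.factorial) := by ring
    _ < (z + 1) * (x.factorial * z.factorial) := Nat.mul_lt_mul_of_pos_right (by omega) h2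
    _ = x.factorial * ((z + 1) * z.factorial) := by ring

private lemma h92_mid_lt' {x y : ℕ} (h : y + 2 ≤ x ∨ x + 2 ≤ y) :
    ((x + y) / 2).factorial * ((x + y + 1) / 2).factorial < x.factorial * y.factorial := by
  rcases h with h | h
  · have := h92_mid_lt h
    rwa [add_comm y x, mul_comm y.factorial] at this
  · exact h92_mid_lt h

private lemma h92_up (N p : ℕ) : (p.factorial : ℝ) * (N.choose p : ℝ) ≤ (N : ℝ) ^ p := by
  have h1 := Nat.descFactorial_le_pow N p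
  rw [Nat.descFactorial_eq_factorial_mul_choose] at h1
  exact_mod_cast h1

private lemma h92_lo (m : ℕ) {θ : ℝ} (hθ : θ < 1) : ∃ N0 : ℕ, ∀ N : ℕ, N0 ≤ N → ∀ p ≤ m,
    θ * (N : ℝ) ^ p ≤ (p.factorial : ℝ) * (N.choose p : ℝ) := by
  have key : ∀ᶠ N : ℕ in atTop, ∀ p ∈ Finset.range (m + 1),
      θ * (N : ℝ) ^ p ≤ (p.factorial : ℝ) * (N.choose p : ℝ) := by
    rw [Filter.eventually_all_finset]
    intro p _
    have h2 := (Asymptotics.isEquivalent_iff_tendsto_one (l := atTop)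
      (u := fun n : ℕ => (n.choose p : ℝ)) (v := fun n : ℕ => ((n : ℝ) ^ p / p.factorial : ℝ))
      (by
        filter_upwards [eventually_gt_atTop 0] with n hn
        have : (0 : ℝ) < n := by exact_mod_cast hn
        positivity)).mp (isEquivalent_choose p)
    filter_upwards [h2.eventually_const_lt hθ, eventually_gt_atTop 0] with n h3 hn
    have h4 : (0 : ℝ) < n := by exact_mod_cast hn
    have h5 : (0 : ℝ) < p.factorial := by exact_mod_cast p.factorial_pos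
    simp only [Pi.div_apply] at h3
    rw [lt_div_iff₀ (by positivity)] at h3
    have h6 := (mul_lt_mul_of_pos_left h3 h5).le
    have h7 : (p.factorial : ℝ) * (θ * ((n : ℝ) ^ p / p.factorial)) = θ * (n : ℝ) ^ p := by
      field_simp
    rwa [h7] at h6
  obtain ⟨N0, hN0⟩ := Filter.eventually_atTop.mp key
  exact ⟨N0, fun N hN p hp => hN0 N hN p (Finset.mem_range.mpr (by omega))⟩

private lemma h92_half (P L r n N1 N2 x1 x2 c : ℕ) (hx : x1 + x2 ≤ 2 * r) (hL : 1 ≤ L)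
    (hc : c = P * L ^ (2 * r) * (2 * r).factorial)
    (h1 : n ^ x1 ≤ L ^ x1 * N1 ^ x1) (h2 : n ^ x2 ≤ L ^ x2 * N2 ^ x2) :
    ((x1.factorial : ℝ) * x2.factorial) *
      ((n : ℝ) * ((N1.choose x1 : ℝ) * (N2.choose x2 : ℝ)) + (P : ℝ) * (n : ℝ) ^ (x1 + x2)) ≤
      ((n : ℝ) + c) * ((N1 : ℝ) ^ x1 * (N2 : ℝ) ^ x2) := by
  have e1 := h92_up N1 x1
  have e2 := h92_up N2 x2
  have f1 : ((x1.factorial : ℝ) * (N1.choose x1 : ℝ)) * ((x2.factorial : ℝ) * (N2.choose x2 : ℝ)) ≤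
      (N1 : ℝ) ^ x1 * (N2 : ℝ) ^ x2 := by gcongr
  have f2 : x1.factorial * x2.factorial * (P * n ^ (x1 + x2)) ≤ c * (N1 ^ x1 * N2 ^ x2) := by
    have g1 : x1.factorial * x2.factorial ≤ (2 * r).factorial :=
      (Nat.le_of_dvd (Nat.factorial_pos _) (Nat.factorial_mul_factorial_dvd_factorial_add x1 x2)).trans
        (Nat.factorial_le hx)
    have g2 : n ^ (x1 + x2) ≤ L ^ (2 * r) * (N1 ^ x1 * N2 ^ x2) := by
      calc n ^ (x1 + x2) = n ^ x1 * n ^ x2 := pow_add _ _ _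
        _ ≤ (L ^ x1 * N1 ^ x1) * (L ^ x2 * N2 ^ x2) := Nat.mul_le_mul h1 h2
        _ = L ^ (x1 + x2) * (N1 ^ x1 * N2 ^ x2) := by ring
        _ ≤ L ^ (2 * r) * (N1 ^ x1 * N2 ^ x2) :=
          Nat.mul_le_mul_right _ (Nat.pow_le_pow_right hL hx)
    calc x1.factorial * x2.factorial * (P * n ^ (x1 + x2))
        ≤ (2 * r).factorial * (P * (L ^ (2 * r) * (N1 ^ x1 * N2 ^ x2))) := by gcongr
      _ = c * (N1 ^ x1 * N2 ^ x2) := by rw [hc]; ring
  have f3 : ((x1.factorial : ℝ) * x2.factorial) * ((P : ℝ) * (n : ℝ) ^ (x1 + x2)) ≤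
      (c : ℝ) * ((N1 : ℝ) ^ x1 * (N2 : ℝ) ^ x2) := by exact_mod_cast f2
  have f4 : (n : ℝ) * (((x1.factorial : ℝ) * (N1.choose x1 : ℝ)) *
      ((x2.factorial : ℝ) * (N2.choose x2 : ℝ))) ≤ (n : ℝ) * ((N1 : ℝ) ^ x1 * (N2 : ℝ) ^ x2) := by
    gcongr
  calc ((x1.factorial : ℝ) * x2.factorial) *
      ((n : ℝ) * ((N1.choose x1 : ℝ) * (N2.choose x2 : ℝ)) + (P : ℝ) * (n : ℝ) ^ (x1 + x2))
      = (n : ℝ) * (((x1.factorial : ℝ) * (N1.choose x1 : ℝ)) *
      ((x2.factorial : ℝ) * (N2.choose x2 : ℝ))) +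
        ((x1.factorial : ℝ) * x2.factorial) * ((P : ℝ) * (n : ℝ) ^ (x1 + x2)) := by ring
    _ ≤ (n : ℝ) * ((N1 : ℝ) ^ x1 * (N2 : ℝ) ^ x2) + (c : ℝ) * ((N1 : ℝ) ^ x1 * (N2 : ℝ) ^ x2) :=
        add_le_add f4 f3
    _ = _ := by ring

private lemma h92_large {L n N i j N' : ℕ} (hn : 1 ≤ n) (hi : 1 ≤ i) (hN : N ≤ n) (hN' : N' ≤ n)
    (h : n ^ (i + j) ≤ L * (N ^ i * N' ^ j)) : n ≤ L * N := by
  obtain ⟨k, rfl⟩ : ∃ k, i = k + 1 := ⟨i - 1, by omega⟩
  have h1 : n ^ (k + 1 + j) = n * n ^ (k + j) := by ring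
  have h2 : L * (N ^ (k + 1) * N' ^ j) ≤ L * N * n ^ (k + j) := by
    calc L * (N ^ (k + 1) * N' ^ j) = L * N * (N ^ k * N' ^ j) := by ring
      _ ≤ L * N * (n ^ k * n ^ j) := by gcongr
      _ = L * N * n ^ (k + j) := by ring
  rw [h1] at h
  exact Nat.le_of_mul_le_mul_right (h.trans h2) (by positivity)

theorem num1 (r P L : ℕ) : ∃ n0 : ℕ, ∀ n : ℕ, n0 ≤ n → ∀ N1 N2 x1 y1 x2 y2 : ℕ, N1 + N2 = n →
    x1 + y1 + (x2 + y2) = 2 * r → n ^ (2 * r) ≤ L * (N1 ^ (x1 + y1) * N2 ^ (x2 + y2)) →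
    (y1 + 2 ≤ x1 ∨ x1 + 2 ≤ y1 ∨ y2 + 2 ≤ x2 ∨ x2 + 2 ≤ y2) →
    (n * (N1.choose x1 * N2.choose x2) + P * n ^ (x1 + x2)) *
        (n * (N1.choose y1 * N2.choose y2) + P * n ^ (y1 + y2)) <
      n ^ 2 * (N1.choose ((x1 + y1) / 2) * N1.choose ((x1 + y1 + 1) / 2) *
        (N2.choose ((x2 + y2) / 2) * N2.choose ((x2 + y2 + 1) / 2))) := by
  set F : ℕ := (2 * r).factorial with hF
  have hF1 : 1 ≤ F := Nat.factorial_pos _
  have hF1' : (1 : ℝ) ≤ F := by exact_mod_cast hF1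
  set h : ℝ := 1 / (5 * F) with hh
  have hh0 : 0 < h := by positivity
  have hhF : 5 * (F : ℝ) * h = 1 := by
    rw [hh]; field_simp
  have hh5 : h ≤ 1 / 5 := by nlinarith
  set θ : ℝ := 1 - h with hθ
  have hθ1 : θ < 1 := by rw [hθ]; linarith
  have hθ0 : 0 < θ := by rw [hθ]; linarith
  obtain ⟨N0, hN0⟩ := h92_lo (2 * r) hθ1
  set c : ℕ := P * L ^ (2 * r) * F with hc
  refine ⟨L * N0 + 15 * c * F + 1, ?_⟩
  intro n hn N1 N2 x1 y1 x2 y2 hN hxy hL hne
  have hn1 : 1 ≤ n := by omega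
  have hL1 : 1 ≤ L := by
    rcases Nat.eq_zero_or_pos L with h0 | h0
    · rw [h0, zero_mul] at hL
      have : 0 < n ^ (2 * r) := by positivity
      omega
    · exact h0
  -- large parts
  have hb1 : 1 ≤ x1 + y1 → n ≤ L * N1 := by
    intro h1
    rw [← hxy] at hL
    exact h92_large hn1 h1 (by omega) (by omega : N2 ≤ n) hL
  have hb2 : 1 ≤ x2 + y2 → n ≤ L * N2 := by
    intro h1
    rw [← hxy, add_comm (x1 + y1), mul_comm (N1 ^ (x1 + y1))] at hL
    exact h92_large hn1 h1 (by omega) (by omega : N1 ≤ n) hL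
  have hbig : ∀ N : ℕ, n ≤ L * N → N0 ≤ N := by
    intro N hNn
    by_contra hlt
    have : L * N ≤ L * N0 := Nat.mul_le_mul_left _ (by omega)
    have h1 : 0 ≤ 15 * c * F := Nat.zero_le _
    omega
  have hp1 : ∀ p ≤ x1 + y1, n ^ p ≤ L ^ p * N1 ^ p := by
    intro p hp
    rcases Nat.eq_zero_or_pos p with h0 | h0
    · simp [h0]
    · rw [← mul_pow]
      exact Nat.pow_le_pow_left (hb1 (by omega)) p
  have hp2 : ∀ p ≤ x2 + y2, n ^ p ≤ L ^ p * N2 ^ p := by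
    intro p hp
    rcases Nat.eq_zero_or_pos p with h0 | h0
    · simp [h0]
    · rw [← mul_pow]
      exact Nat.pow_le_pow_left (hb2 (by omega)) p
  have hl1 : ∀ p ≤ x1 + y1, θ * (N1 : ℝ) ^ p ≤ (p.factorial : ℝ) * (N1.choose p : ℝ) := by
    intro p hp
    rcases Nat.eq_zero_or_pos p with h0 | h0
    · simp [h0, hθ1.le]
    · exact hN0 N1 (hbig N1 (hb1 (by omega))) p (by omega)
  have hl2 : ∀ p ≤ x2 + y2, θ * (N2 : ℝ) ^ p ≤ (p.factorial : ℝ) * (N2.choose p : ℝ) := by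
    intro p hp
    rcases Nat.eq_zero_or_pos p with h0 | h0
    · simp [h0, hθ1.le]
    · exact hN0 N2 (hbig N2 (hb2 (by omega))) p (by omega)
  -- the two halves of the left side
  have u1 := h92_half P L r n N1 N2 x1 x2 c (by omega) hL1 hc (hp1 x1 (by omega)) (hp2 x2 (by omega))
  have u2 := h92_half P L r n N1 N2 y1 y2 c (by omega) hL1 hc (hp1 y1 (by omega)) (hp2 y2 (by omega))
  -- the right side
  have v1 := hl1 ((x1 + y1) / 2) (by omega)
  have v2 := hl1 ((x1 + y1 + 1) / 2) (by omega)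
  have v3 := hl2 ((x2 + y2) / 2) (by omega)
  have v4 := hl2 ((x2 + y2 + 1) / 2) (by omega)
  have hs1 : (x1 + y1) / 2 + (x1 + y1 + 1) / 2 = x1 + y1 := by omega
  have hs2 : (x2 + y2) / 2 + (x2 + y2 + 1) / 2 = x2 + y2 := by omega
  -- factorials
  have d1 : ((x1 + y1) / 2).factorial * ((x1 + y1 + 1) / 2).factorial *
      (((x2 + y2) / 2).factorial * ((x2 + y2 + 1) / 2).factorial) <
      x1.factorial * y1.factorial * (x2.factorial * y2.factorial) := by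
    have m1 := h92_mid x1 y1
    have m2 := h92_mid x2 y2
    have m3 : 0 < x1.factorial * y1.factorial :=
      Nat.mul_pos (Nat.factorial_pos _) (Nat.factorial_pos _)
    have m4 : 0 < x2.factorial * y2.factorial :=
      Nat.mul_pos (Nat.factorial_pos _) (Nat.factorial_pos _)
    rcases (show (y1 + 2 ≤ x1 ∨ x1 + 2 ≤ y1) ∨ (y2 + 2 ≤ x2 ∨ x2 + 2 ≤ y2) by omega) with hh1 | hh1
    · exact Nat.mul_lt_mul_of_lt_of_le (h92_mid_lt' hh1) m2 m4
    · exact Nat.mul_lt_mul_of_le_of_lt m1 (h92_mid_lt' hh1) m3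
  have d2 : x1.factorial * y1.factorial * (x2.factorial * y2.factorial) ≤ F := by
    have m1 := Nat.le_of_dvd (Nat.factorial_pos _) (Nat.factorial_mul_factorial_dvd_factorial_add x1 y1)
    have m2 := Nat.le_of_dvd (Nat.factorial_pos _) (Nat.factorial_mul_factorial_dvd_factorial_add x2 y2)
    have m3 := Nat.le_of_dvd (Nat.factorial_pos _)
      (Nat.factorial_mul_factorial_dvd_factorial_add (x1 + y1) (x2 + y2))
    rw [hxy] at m3
    exact (Nat.mul_le_mul m1 m2).trans m3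
  -- names for the numbers
  set D : ℝ := ((((x1 + y1) / 2).factorial * ((x1 + y1 + 1) / 2).factorial *
      (((x2 + y2) / 2).factorial * ((x2 + y2 + 1) / 2).factorial) : ℕ) : ℝ) with hD
  set D' : ℝ := ((x1.factorial * y1.factorial * (x2.factorial * y2.factorial) : ℕ) : ℝ) with hD'
  have d3 : D + 1 ≤ D' := by rw [hD, hD']; exact_mod_cast d1
  have d4 : D' ≤ F := by rw [hD']; exact_mod_cast d2
  have d5 : (1 : ℝ) ≤ D := by
    rw [hD]
    have : 1 ≤ ((x1 + y1) / 2).factorial * ((x1 + y1 + 1) / 2).factorial *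
      (((x2 + y2) / 2).factorial * ((x2 + y2 + 1) / 2).factorial) :=
      Nat.mul_pos (Nat.mul_pos (Nat.factorial_pos _) (Nat.factorial_pos _))
        (Nat.mul_pos (Nat.factorial_pos _) (Nat.factorial_pos _))
    exact_mod_cast this
  have hth5 : 1 - 5 * h ≤ θ ^ 5 := by
    have := one_add_mul_le_pow (a := -h) (by linarith) 5
    push_cast at this
    rw [hθ]
    have e : (1 : ℝ) + -h = 1 - h := by ring
    rw [e] at this
    linarith
  have d6 : D ≤ D' * θ ^ 5 := by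
    have g1 : D' * (1 - 5 * h) ≤ D' * θ ^ 5 := mul_le_mul_of_nonneg_left hth5 (by linarith)
    have g2 : D' * (5 * h) ≤ F * (5 * h) := mul_le_mul_of_nonneg_right d4 (by linarith)
    have g3 : (F : ℝ) * (5 * h) = 1 := by linarith
    nlinarith
  set T : ℝ := (N1 : ℝ) ^ (x1 + y1) * (N2 : ℝ) ^ (x2 + y2) with hT
  have hT0 : 0 < T := by
    have g1 : 0 < L * (N1 ^ (x1 + y1) * N2 ^ (x2 + y2)) :=
      lt_of_lt_of_le (by positivity : 0 < n ^ (2 * r)) hL
    have g2 : 0 < N1 ^ (x1 + y1) * N2 ^ (x2 + y2) := Nat.pos_of_mul_pos_left g1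
    rw [hT]
    exact_mod_cast g2
  -- the left side
  set A : ℝ := (n : ℝ) * ((N1.choose x1 : ℝ) * (N2.choose x2 : ℝ)) + (P : ℝ) * (n : ℝ) ^ (x1 + x2) with hA
  set B : ℝ := (n : ℝ) * ((N1.choose y1 : ℝ) * (N2.choose y2 : ℝ)) + (P : ℝ) * (n : ℝ) ^ (y1 + y2) with hB
  have hA0 : 0 ≤ A := by positivity
  have hB0 : 0 ≤ B := by positivity
  have l1 : D' * (A * B) ≤ T * ((n : ℝ) + c) ^ 2 := by
    have g1 : ((x1.factorial : ℝ) * x2.factorial * A) * ((y1.factorial : ℝ) * y2.factorial * B) ≤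
        (((n : ℝ) + c) * ((N1 : ℝ) ^ x1 * (N2 : ℝ) ^ x2)) *
          (((n : ℝ) + c) * ((N1 : ℝ) ^ y1 * (N2 : ℝ) ^ y2)) := by
      gcongr
    calc D' * (A * B) = ((x1.factorial : ℝ) * x2.factorial * A) *
          ((y1.factorial : ℝ) * y2.factorial * B) := by
          rw [hD']; push_cast; ring
      _ ≤ _ := g1
      _ = T * ((n : ℝ) + c) ^ 2 := by rw [hT]; ring
  have l2 : θ * ((n : ℝ) + c) ^ 2 < (n : ℝ) ^ 2 := by
    have hn' : ((15 * c * F + 1 : ℕ) : ℝ) ≤ n := by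
      have : 15 * c * F + 1 ≤ n := by
        have := Nat.zero_le (L * N0)
        omega
      exact_mod_cast this
    push_cast at hn'
    have hc0 : (0 : ℝ) ≤ c := Nat.cast_nonneg _
    have g1 : (c : ℝ) ≤ n := by nlinarith
    have g2 : 3 * (c : ℝ) < h * n := by
      have g3 : h * (15 * c * F + 1) ≤ h * n := mul_le_mul_of_nonneg_left hn' hh0.le
      have g4 : h * (15 * c * F + 1) = 3 * c * (5 * F * h) + h := by ring
      rw [g4, hhF] at g3
      linarith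
    have hn0 : (0 : ℝ) < n := by exact_mod_cast hn1
    have g5 : 3 * (c : ℝ) * n < h * n * n := mul_lt_mul_of_pos_right g2 hn0
    have g6 : (c : ℝ) * c ≤ c * n := mul_le_mul_of_nonneg_left g1 hc0
    have g7 : 0 ≤ h * (2 * (n : ℝ) * c + c * c) := by positivity
    rw [hθ]
    nlinarith
  -- the right side
  set R : ℝ := (N1.choose ((x1 + y1) / 2) : ℝ) * (N1.choose ((x1 + y1 + 1) / 2) : ℝ) *
        ((N2.choose ((x2 + y2) / 2) : ℝ) * (N2.choose ((x2 + y2 + 1) / 2) : ℝ)) with hR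
  have r1 : θ ^ 4 * T ≤ D * R := by
    have g1 : (θ * (N1 : ℝ) ^ ((x1 + y1) / 2)) * (θ * (N1 : ℝ) ^ ((x1 + y1 + 1) / 2)) *
        ((θ * (N2 : ℝ) ^ ((x2 + y2) / 2)) * (θ * (N2 : ℝ) ^ ((x2 + y2 + 1) / 2))) ≤
        ((((x1 + y1) / 2).factorial : ℝ) * (N1.choose ((x1 + y1) / 2) : ℝ)) *
        ((((x1 + y1 + 1) / 2).factorial : ℝ) * (N1.choose ((x1 + y1 + 1) / 2) : ℝ)) *
        (((((x2 + y2) / 2).factorial : ℝ) * (N2.choose ((x2 + y2) / 2) : ℝ)) *
        ((((x2 + y2 + 1) / 2).factorial : ℝ) * (N2.choose ((x2 + y2 + 1) / 2) : ℝ))) := by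
      gcongr
    calc θ ^ 4 * T = (θ * (N1 : ℝ) ^ ((x1 + y1) / 2)) * (θ * (N1 : ℝ) ^ ((x1 + y1 + 1) / 2)) *
        ((θ * (N2 : ℝ) ^ ((x2 + y2) / 2)) * (θ * (N2 : ℝ) ^ ((x2 + y2 + 1) / 2))) := by
          rw [hT]
          conv_lhs => rw [← hs1, ← hs2, pow_add (N1 : ℝ), pow_add (N2 : ℝ)]
          ring
      _ ≤ _ := g1
      _ = D * R := by rw [hD, hR]; push_cast; ring
  -- conclusion
  have fin : A * B < (n : ℝ) ^ 2 * R := by
    have hD'0 : 0 < D' := by linarith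
    have hD0 : 0 < D := by linarith
    have hR0 : 0 ≤ R := by positivity
    have k1 : (D * D' * θ) * (A * B) < (D * D' * θ) * ((n : ℝ) ^ 2 * R) := by
      calc (D * D' * θ) * (A * B) = (D * θ) * (D' * (A * B)) := by ring
        _ ≤ (D * θ) * (T * ((n : ℝ) + c) ^ 2) := by gcongr
        _ = (D * T) * (θ * ((n : ℝ) + c) ^ 2) := by ring
        _ < (D * T) * (n : ℝ) ^ 2 := mul_lt_mul_of_pos_left l2 (by positivity)
        _ ≤ (D' * θ ^ 5 * T) * (n : ℝ) ^ 2 := by gcongr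
        _ = (D' * θ * (n : ℝ) ^ 2) * (θ ^ 4 * T) := by ring
        _ ≤ (D' * θ * (n : ℝ) ^ 2) * (D * R) := by gcongr
        _ = (D * D' * θ) * ((n : ℝ) ^ 2 * R) := by ring
    exact lt_of_mul_lt_mul_left k1 (by positivity)
  rw [hA, hB, hR] at fin
  exact_mod_cast fin

end Pool.Agent.H5.EH
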