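import Mathlib

/-! [EH NumB] See the header of `Num.lean`. -/

set_option autoImplicit false

namespace Pool.Agent.H5.EH

lemma nb_low (r L n N x : ℕ) (hL : 0 < L) (hN : 0 < x → n ≤ L * N) (hn : 4 * r * L ≤ n)
    (hx : x ≤ 2 * r) : n ^ x ≤ (2 * L + 1) ^ (2 * r) * (2 * r).factorial * N.choose x := by
  rcases Nat.eq_zero_or_pos x with rfl | hx0
  · rw [pow_zero, Nat.choose_zero_right, mul_one]
    exact Nat.mul_pos (by positivity) (Nat.factorial_pos _)
  have hN := hN hx0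
  have h1 : 4 * r ≤ N := by
    by_contra h
    push Not at h
    have : L * N < L * (4 * r) := Nat.mul_lt_mul_of_pos_left h hL
    nlinarith
  have h2 : N ≤ 2 * (N + 1 - x) := by omega
  calc n ^ x ≤ (L * N) ^ x := Nat.pow_le_pow_left hN x
    _ ≤ (L * (2 * (N + 1 - x))) ^ x := Nat.pow_le_pow_left (Nat.mul_le_mul_left _ h2) x
    _ = (2 * L) ^ x * (N + 1 - x) ^ x := by rw [← mul_pow]; congr 1; ring
    _ ≤ (2 * L) ^ x * (x.factorial * N.choose x) := by
        refine Nat.mul_le_mul_left _ ?_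
        rw [← Nat.descFactorial_eq_factorial_mul_choose]
        exact Nat.pow_sub_le_descFactorial N x
    _ ≤ (2 * L + 1) ^ (2 * r) * ((2 * r).factorial * N.choose x) := by
        refine Nat.mul_le_mul ?_ (Nat.mul_le_mul_right _ (Nat.factorial_le hx))
        exact (Nat.pow_le_pow_left (by omega) x).trans (Nat.pow_le_pow_right (by omega) hx)
    _ = _ := by ring

lemma nb_lin (L n N1 N2 i j : ℕ) (hn : 0 < n) (h1 : N1 ≤ n) (h2 : N2 ≤ n) (hi : 0 < i)
    (h : n ^ (i + j) ≤ L * (N1 ^ i * N2 ^ j)) : n ≤ L * N1 := by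
  obtain ⟨i, rfl⟩ := Nat.exists_eq_succ_of_ne_zero hi.ne'
  have h3 : n ^ (i + j) * n ≤ n ^ (i + j) * (L * N1) := by
    calc n ^ (i + j) * n = n ^ (i.succ + j) := by
          rw [← pow_succ]; congr 1; omega
      _ ≤ L * (N1 ^ i.succ * N2 ^ j) := h
      _ = L * N1 * (N1 ^ i * N2 ^ j) := by rw [pow_succ]; ring
      _ ≤ L * N1 * (n ^ i * n ^ j) :=
          Nat.mul_le_mul_left _ (Nat.mul_le_mul (Nat.pow_le_pow_left h1 i)
            (Nat.pow_le_pow_left h2 j))
      _ = n ^ (i + j) * (L * N1) := by rw [← pow_add]; ring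
  exact Nat.le_of_mul_le_mul_left h3 (by positivity)

theorem num2 (r P L l : ℕ) : ∃ n0 : ℕ, ∀ n : ℕ, n0 ≤ n → ∀ N1 N2 x1 y1 x2 y2 f g : ℕ, N1 + N2 = n →
    x1 + y1 + (x2 + y2) = 2 * r → n ^ (2 * r) ≤ L * (N1 ^ (x1 + y1) * N2 ^ (x2 + y2)) →
    f ≤ N1.choose x1 * N2.choose x2 → g ≤ N1.choose y1 * N2.choose y2 →
    n ^ 2 * (N1.choose x1 * N2.choose x2 * (N1.choose y1 * N2.choose y2)) ≤
      (n * f + P * n ^ (x1 + x2)) * (n * g + P * n ^ (y1 + y2)) →
    n * (N1.choose x1 * N2.choose x2 - f) + l * n ^ (x1 + x2) < n * (N1.choose x1 * N2.choose x2) := by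
  obtain ⟨D0, hD0⟩ : ∃ D0, D0 = (2 * L + 1) ^ (2 * r) * (2 * r).factorial := ⟨_, rfl⟩
  obtain ⟨D, hD⟩ : ∃ D, D = D0 * D0 := ⟨_, rfl⟩
  refine ⟨4 * r * L + (l + P) * D * (1 + P * D) + 1, ?_⟩
  intro n hn N1 N2 x1 y1 x2 y2 f g hN hxy hL hf hg hmain
  have hn0 : 0 < n := by omega
  have hL0 : 0 < L := by
    rcases Nat.eq_zero_or_pos L with rfl | h
    · rw [zero_mul] at hL
      have : 0 < n ^ (2 * r) := by positivity
      omega
    · exact h
  have hn4 : 4 * r * L ≤ n := by omega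
  have hN1 : N1 ≤ n := by omega
  have hN2 : N2 ≤ n := by omega
  have e1 : 0 < x1 + y1 → n ≤ L * N1 := fun h =>
    nb_lin L n N1 N2 _ _ hn0 hN1 hN2 h (by rw [hxy]; exact hL)
  have e2 : 0 < x2 + y2 → n ≤ L * N2 := fun h =>
    nb_lin L n N2 N1 _ _ hn0 hN2 hN1 h (by
      rw [add_comm (x2 + y2) (x1 + y1), hxy, mul_comm (N2 ^ _)]; exact hL)
  have a1 := nb_low r L n N1 x1 hL0 (fun h => e1 (by omega)) hn4 (by omega)
  have a2 := nb_low r L n N2 x2 hL0 (fun h => e2 (by omega)) hn4 (by omega)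
  have b1 := nb_low r L n N1 y1 hL0 (fun h => e1 (by omega)) hn4 (by omega)
  have b2 := nb_low r L n N2 y2 hL0 (fun h => e2 (by omega)) hn4 (by omega)
  rw [← hD0] at a1 a2 b1 b2
  generalize hCx : N1.choose x1 * N2.choose x2 = Cx at *
  generalize hCy : N1.choose y1 * N2.choose y2 = Cy at *
  have hA : n ^ (x1 + x2) ≤ D * Cx := by
    rw [pow_add, hD, ← hCx]
    calc n ^ x1 * n ^ x2 ≤ (D0 * N1.choose x1) * (D0 * N2.choose x2) := Nat.mul_le_mul a1 a2
      _ = _ := by ring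
  have hB : n ^ (y1 + y2) ≤ D * Cy := by
    rw [pow_add, hD, ← hCy]
    calc n ^ y1 * n ^ y2 ≤ (D0 * N1.choose y1) * (D0 * N2.choose y2) := Nat.mul_le_mul b1 b2
      _ = _ := by ring
  have hA0 : 0 < n ^ (x1 + x2) := by positivity
  have hB0 : 0 < n ^ (y1 + y2) := by positivity
  have hCx0 : 0 < Cx := Nat.pos_of_ne_zero (by rintro rfl; omega)
  have hCy0 : 0 < Cy := Nat.pos_of_ne_zero (by rintro rfl; omega)
  -- the conclusion means `l * n ^ a < n * f`
  have key : l * n ^ (x1 + x2) < n * f := by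
    by_contra hcon
    push Not at hcon
    have h1 : n ^ 2 * (Cx * Cy) ≤ (l + P) * D * (n + P * D) * (Cx * Cy) := by
      calc n ^ 2 * (Cx * Cy) ≤ (n * f + P * n ^ (x1 + x2)) * (n * g + P * n ^ (y1 + y2)) := hmain
        _ ≤ (l * n ^ (x1 + x2) + P * n ^ (x1 + x2)) * (n * Cy + P * (D * Cy)) := by
            refine Nat.mul_le_mul (Nat.add_le_add_right hcon _) ?_
            exact Nat.add_le_add (Nat.mul_le_mul_left _ hg) (Nat.mul_le_mul_left _ hB)
        _ = (l + P) * n ^ (x1 + x2) * (n + P * D) * Cy := by ring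
        _ ≤ (l + P) * (D * Cx) * (n + P * D) * Cy := by
            gcongr
        _ = _ := by ring
    have h2 : n ^ 2 ≤ (l + P) * D * (n + P * D) :=
      Nat.le_of_mul_le_mul_right h1 (Nat.mul_pos hCx0 hCy0)
    have h3 : (l + P) * D * (n + P * D) ≤ (l + P) * D * (1 + P * D) * n := by
      have : n + P * D ≤ (1 + P * D) * n := by nlinarith [Nat.zero_le (P * D)]
      calc (l + P) * D * (n + P * D) ≤ (l + P) * D * ((1 + P * D) * n) :=
            Nat.mul_le_mul_left _ this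
        _ = _ := by ring
    have h4 : (l + P) * D * (1 + P * D) * n < n * n := by
      refine Nat.mul_lt_mul_of_pos_right ?_ hn0
      omega
    nlinarith
  rw [Nat.mul_sub]
  have h5 : n * f ≤ n * Cx := Nat.mul_le_mul_left _ hf
  omega

end Pool.Agent.H5.EH
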