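import Pool.Agent.H5.EH.Ball
import Pool.Agent.H5.EH.Idn
import Pool.Agent.H5.EG.Str

/-!
[EH Str] PROOF. By `ball` it is enough that every `A ∈ F` has `|S \ A| ≤ x1`, `|A \ S| ≤ x2`. Let `X = symmDiff A S`, `|X| ≤ l`. The sets `B` of
type `(y1, y2)` are `S.card.choose y1 * (n - S.card).choose y2` many; those with `symmDiff B S` meeting `X` are few:
`n * #(these) ≤ l * n^(y1+y2)`. By `hnear` some `B ∈ G` of this type has `symmDiff B S ∩ X = ∅`; use `id1`, `id2`.
-/

set_option autoImplicit false

namespace Pool.Agent.H5.EH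

open Finset

theorem str_typ (n : ℕ) (S : Finset (Fin n)) (y1 y2 : ℕ) :
    S.card.choose y1 * (n - S.card).choose y2 ≤
      (univ.filter fun B : Finset (Fin n) => (S \ B).card = y1 ∧ (B \ S).card = y2).card := by
  classical
  have hc : (Sᶜ).card = n - S.card := by
    rw [card_compl, Fintype.card_fin]
  rw [← hc, ← card_powersetCard, ← card_powersetCard, ← card_product]
  have key : ∀ X Y : Finset (Fin n), X ⊆ S → Y ⊆ Sᶜ → S \ ((S \ X) ∪ Y) = X ∧ ((S \ X) ∪ Y) \ S = Y := by
    intro X Y h1 h3
    constructor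
    · ext x
      have a := @h1 x
      have b := @h3 x
      simp only [mem_sdiff, mem_union, mem_compl] at *
      tauto
    · ext x
      have a := @h1 x
      have b := @h3 x
      simp only [mem_sdiff, mem_union, mem_compl] at *
      tauto
  refine card_le_card_of_injOn (fun P => (S \ P.1) ∪ P.2) ?_ ?_
  · rintro ⟨X, Y⟩ hXY
    simp only [coe_product, Set.mem_prod, mem_coe, mem_powersetCard] at hXY
    obtain ⟨⟨h1, h2⟩, h3, h4⟩ := hXY
    obtain ⟨e1, e2⟩ := key X Y h1 h3
    rw [mem_coe, mem_filter]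
    refine ⟨mem_univ _, ?_, ?_⟩
    · change (S \ ((S \ X) ∪ Y)).card = y1
      rw [e1, h2]
    · change (((S \ X) ∪ Y) \ S).card = y2
      rw [e2, h4]
  · rintro ⟨X, Y⟩ hXY ⟨X', Y'⟩ hXY' he
    simp only [coe_product, Set.mem_prod, mem_coe, mem_powersetCard] at hXY hXY'
    obtain ⟨e1, e2⟩ := key X Y hXY.1.1 hXY.2.1
    obtain ⟨e1', e2'⟩ := key X' Y' hXY'.1.1 hXY'.2.1
    change (S \ X) ∪ Y = (S \ X') ∪ Y' at he
    rw [he] at e1 e2
    exact Prod.ext (e1.symm.trans e1') (e2.symm.trans e2')

theorem str2 (n t r l x1 y1 x2 y2 : ℕ) (hsum : x1 + y1 + (x2 + y2) = 2 * r) (S : Finset (Fin n))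
    (hS : S.card = t + (x1 + y1)) (F G : Finset (Finset (Fin n))) (h : Cr n t r F G)
    (hl : ∀ A ∈ F, (symmDiff A S).card ≤ l)
    (hnear : n * (S.card.choose y1 * (n - S.card).choose y2 - (ty S G (y1, y2)).card) +
        l * n ^ (y1 + y2) < n * (S.card.choose y1 * (n - S.card).choose y2)) :
    F.card ≤ K S.card x1 * K (n - S.card) x2 := by
  classical
  rw [← ball n S x1 x2]
  refine card_le_card fun A hA => ?_
  rw [mem_filter]
  refine ⟨mem_univ _, ?_⟩
  set X := symmDiff A S with hX
  have hXl : X.card ≤ l := hl A hA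
  set U := univ.filter fun B : Finset (Fin n) => (S \ B).card = y1 ∧ (B \ S).card = y2 with hU
  have hUc := str_typ n S y1 y2
  rw [← hU] at hUc
  have hUc2 : U.card ≤ S.card.choose y1 * (n - S.card).choose y2 := tyc n S univ (y1, y2)
  -- the members of `U` not in `G`
  have hbad1 : (U.filter fun B => B ∉ G).card ≤
      S.card.choose y1 * (n - S.card).choose y2 - (ty S G (y1, y2)).card := by
    have e1 : (U.filter fun B => B ∈ G).card + (U.filter fun B => B ∉ G).card = U.card :=
      card_filter_add_card_filter_not (s := U) (fun B => B ∈ G)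
    have e2 : ty S G (y1, y2) = U.filter fun B => B ∈ G := by
      ext B
      rw [ty, mem_filter, mem_filter, hU, mem_filter]
      constructor
      · rintro ⟨a1, a2, a3⟩
        exact ⟨⟨mem_univ _, a2, a3⟩, a1⟩
      · rintro ⟨⟨-, a2, a3⟩, a1⟩
        exact ⟨a1, a2, a3⟩
    rw [e2]
    omega
  -- the members of `U` with deviation meeting `X`
  have hbad2 : n * (U.filter fun B => ¬ Disjoint (symmDiff B S) X).card ≤ l * n ^ (y1 + y2) := by
    rcases Nat.eq_zero_or_pos (y1 + y2) with hy | hy
    · have e : (U.filter fun B => ¬ Disjoint (symmDiff B S) X) = ∅ := by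
        rw [filter_eq_empty_iff]
        intro B hB
        rw [hU, mem_filter] at hB
        rw [not_not]
        have h1 : (symmDiff B S).card = 0 := by
          rw [card_dev, hB.2.1, hB.2.2]
          exact hy
        rw [card_eq_zero.mp h1]
        exact disjoint_empty_left X
      rw [e]
      simp
    · have e1 : (U.filter fun B => ¬ Disjoint (symmDiff B S) X).card ≤
          (((univ : Finset (Fin n)).powersetCard (y1 + y2)).filter fun Y => ¬ Disjoint Y X).card := by
        refine card_le_card_of_injOn (fun B => symmDiff B S) ?_ ?_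
        · intro B hB
          rw [mem_coe, mem_filter, hU, mem_filter] at hB
          obtain ⟨⟨-, b1, b2⟩, b3⟩ := hB
          rw [mem_coe, mem_filter, mem_powersetCard]
          refine ⟨⟨subset_univ _, ?_⟩, b3⟩
          change (symmDiff B S).card = _
          rw [card_dev, b1, b2]
        · intro B _ B' _ he
          have h1 := congrArg (fun Y => symmDiff Y S) he
          simpa [symmDiff_symmDiff_cancel_right] using h1
      have e2 := Pool.Agent.H5.EG.str_meet (y1 + y2) l hy (univ : Finset (Fin n)) X hXl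
      calc n * (U.filter fun B => ¬ Disjoint (symmDiff B S) X).card ≤ n * (l * n ^ (y1 + y2 - 1)) :=
            Nat.mul_le_mul_left _ (e1.trans e2)
        _ = l * (n * n ^ (y1 + y2 - 1)) := by ring
        _ = l * n ^ (y1 + y2) := by
            rw [← pow_succ', show y1 + y2 - 1 + 1 = y1 + y2 by omega]
  -- a good member
  obtain ⟨B, hBU, hBG, hBX⟩ : ∃ B ∈ U, B ∈ G ∧ Disjoint (symmDiff B S) X := by
    by_contra hcon
    push Not at hcon
    have h1 : U ⊆ (U.filter fun B => B ∉ G) ∪ (U.filter fun B => ¬ Disjoint (symmDiff B S) X) := by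
      intro B hB
      rw [mem_union]
      by_cases hBG : B ∈ G
      · exact Or.inr (mem_filter.mpr ⟨hB, hcon B hB hBG⟩)
      · exact Or.inl (mem_filter.mpr ⟨hB, hBG⟩)
    have h2 := (card_le_card h1).trans (card_union_le _ _)
    have h3 : n * (S.card.choose y1 * (n - S.card).choose y2) ≤
        n * (S.card.choose y1 * (n - S.card).choose y2 - (ty S G (y1, y2)).card) + l * n ^ (y1 + y2) := by
      calc n * (S.card.choose y1 * (n - S.card).choose y2) ≤ n * U.card := Nat.mul_le_mul_left _ hUc
        _ ≤ n * ((U.filter fun B => B ∉ G).card + (U.filter fun B => ¬ Disjoint (symmDiff B S) X).card) :=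
            Nat.mul_le_mul_left _ h2
        _ = n * (U.filter fun B => B ∉ G).card + n * (U.filter fun B => ¬ Disjoint (symmDiff B S) X).card := by
            ring
        _ ≤ _ := Nat.add_le_add (Nat.mul_le_mul_left _ hbad1) hbad2
    omega
  rw [hU, mem_filter] at hBU
  obtain ⟨-, b1, b2⟩ := hBU
  have e0 : symmDiff A S ∩ symmDiff B S = ∅ := by
    rw [inter_comm, ← disjoint_iff_inter_eq_empty]
    exact hBX
  have e1 := id1 S A B
  have e2 := id2 S A B
  rw [e0, card_empty] at e1 e2
  obtain ⟨c1, c2⟩ := h A hA B hBG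
  omega

end Pool.Agent.H5.EH
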