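import Pool.Agent.H5.EH.Pair
import Pool.Agent.H5.EH.Cen
import Pool.Agent.H5.EH.Num
import Pool.Agent.H5.EH.NumB
import Pool.Agent.H5.EH.LC
import Pool.Agent.H5.EH.Str
import Pool.Agent.H5.EG.Main

set_option autoImplicit false

namespace Pool.Agent.H5.EH

open Finset Pool.Agent.H23.TS

theorem dom2 {ι : Type*} [DecidableEq ι] (Om : Finset ι) (D Q2 L r a n : ℕ) (f : ι → ℕ) (x : ι)
    (hx : x ∈ Om) (gy : ℕ) (hgy : 0 < gy) (hOm : Om.card ≤ D) (hfx : f x ≤ n ^ a)
    (h1 : n ^ (2 * r) ≤ L * (f x * gy))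
    (h2 : ∀ z ∈ Om, z ≠ x → n * (f z * gy) ≤ Q2 * n ^ (2 * r)) :
    n * ∑ z ∈ Om, f z ≤ n * f x + D * (Q2 * L) * n ^ a := by
  rw [← add_sum_erase Om f hx, mul_add, mul_sum]
  refine Nat.add_le_add_left ?_ _
  have hz : ∀ z ∈ Om.erase x, n * f z ≤ Q2 * L * n ^ a := by
    intro z hz
    have h3 := h2 z (mem_of_mem_erase hz) (ne_of_mem_erase hz)
    have h4 : n * f z * gy ≤ Q2 * L * n ^ a * gy := by
      calc n * f z * gy = n * (f z * gy) := by ring
        _ ≤ Q2 * n ^ (2 * r) := h3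
        _ ≤ Q2 * (L * (f x * gy)) := Nat.mul_le_mul_left _ h1
        _ = Q2 * L * f x * gy := by ring
        _ ≤ Q2 * L * n ^ a * gy := by gcongr
    exact Nat.le_of_mul_le_mul_right h4 hgy
  calc ∑ z ∈ Om.erase x, n * f z ≤ ∑ z ∈ Om.erase x, Q2 * L * n ^ a := sum_le_sum hz
    _ = (Om.erase x).card * (Q2 * L * n ^ a) := by rw [sum_const, smul_eq_mul]
    _ ≤ D * (Q2 * L * n ^ a) := Nat.mul_le_mul_right _ ((card_le_card (erase_subset x Om)).trans hOm)
    _ = D * (Q2 * L) * n ^ a := by ring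

/-- the index set of the types -/
def Om (l : ℕ) : Finset (ℕ × ℕ) := range (l + 1) ×ˢ range (l + 1)

theorem Om_card (l : ℕ) : (Om l).card = (l + 1) ^ 2 := by
  unfold Om
  rw [card_product, card_range, pow_two]

theorem mem_Om (l : ℕ) (x : ℕ × ℕ) : x ∈ Om l ↔ x.1 ≤ l ∧ x.2 ≤ l := by
  unfold Om
  rw [mem_product, mem_range, mem_range, Nat.lt_succ_iff, Nat.lt_succ_iff]

theorem mem_ty {n : ℕ} {S : Finset (Fin n)} {F : Finset (Finset (Fin n))} {x : ℕ × ℕ} {A : Finset (Fin n)} :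
    A ∈ ty S F x ↔ A ∈ F ∧ (S \ A).card = x.1 ∧ (A \ S).card = x.2 := mem_filter

theorem ty_sum {n : ℕ} (l : ℕ) (S : Finset (Fin n)) (F : Finset (Finset (Fin n)))
    (hF : ∀ A ∈ F, (symmDiff A S).card ≤ l) : F.card = ∑ x ∈ Om l, (ty S F x).card := by
  classical
  rw [card_eq_sum_card_fiberwise (f := fun A => ((S \ A).card, (A \ S).card)) (t := Om l)
    (fun A hA => by
      have h1 := hF A hA
      rw [card_dev] at h1
      change ((S \ A).card, (A \ S).card) ∈ Om l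
      rw [mem_Om]
      exact ⟨by change (S \ A).card ≤ l; omega, by change (A \ S).card ≤ l; omega⟩)]
  refine sum_congr rfl fun x _ => ?_
  congr 1
  ext A
  rw [mem_filter, mem_ty]
  constructor
  · rintro ⟨h1, h2⟩
    exact ⟨h1, congrArg Prod.fst h2, congrArg Prod.snd h2⟩
  · rintro ⟨h1, h2, h3⟩
    exact ⟨h1, Prod.ext h2 h3⟩

/-- a dominant type -/
theorem ty_max {n : ℕ} (l : ℕ) (S : Finset (Fin n)) (F : Finset (Finset (Fin n)))
    (hF : ∀ A ∈ F, (symmDiff A S).card ≤ l) :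
    ∃ x ∈ Om l, F.card ≤ (l + 1) ^ 2 * (ty S F x).card := by
  obtain ⟨x, hx, hmax⟩ := exists_max_image (Om l) (fun x => (ty S F x).card)
    ⟨(0, 0), by rw [mem_Om]; exact ⟨Nat.zero_le _, Nat.zero_le _⟩⟩
  refine ⟨x, hx, ?_⟩
  rw [ty_sum l S F hF]
  refine (sum_le_card_nsmul _ _ _ hmax).trans (le_of_eq ?_)
  rw [Om_card, smul_eq_mul]

theorem card_sd {n : ℕ} (A B : Finset (Fin n)) :
    (symmDiff A B).card + (A ∩ B).card = (A ∪ B).card := by
  classical
  rw [← card_union_of_disjoint (by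
    rw [disjoint_left]
    intro x hx hx'
    rw [mem_symmDiff] at hx
    rw [mem_inter] at hx'
    rcases hx with h | h
    · exact h.2 hx'.2
    · exact h.2 hx'.1)]
  congr 1
  ext x
  rw [mem_union, mem_symmDiff, mem_inter, mem_union]
  tauto

theorem sd_tri {n : ℕ} (A B C : Finset (Fin n)) :
    (symmDiff A C).card ≤ (symmDiff A B).card + (symmDiff B C).card := by
  classical
  refine (card_le_card ?_).trans (card_union_le _ _)
  intro x hx
  rw [mem_union, mem_symmDiff, mem_symmDiff]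
  rw [mem_symmDiff] at hx
  tauto

theorem sd_self {n : ℕ} (S C : Finset (Fin n)) : (symmDiff S (symmDiff S C)).card = C.card := by
  rw [symmDiff_symmDiff_cancel_left]

theorem dev_inj {n : ℕ} (S : Finset (Fin n)) : Function.Injective fun A : Finset (Fin n) => symmDiff A S := by
  intro A B h
  have h1 := congrArg (fun X => symmDiff X S) h
  simpa [symmDiff_symmDiff_cancel_right] using h1

theorem low_M (t s r M : ℕ) (hM : ∀ u ≤ r, K (t + 2 * u) u * K (s + 2 * (r - u)) (r - u) ≤ M) :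
    (t + s + 2 * r) ^ r ≤ 4 ^ r * r.factorial * M := by
  have key : ∀ N : ℕ, 2 * r ≤ N → t + s + 2 * r ≤ 2 * N → N.choose r ≤ M →
      (t + s + 2 * r) ^ r ≤ 4 ^ r * r.factorial * M := by
    intro N hN hn hc
    have h1 : t + s + 2 * r ≤ 4 * (N + 1 - r) := by omega
    calc (t + s + 2 * r) ^ r ≤ (4 * (N + 1 - r)) ^ r := Nat.pow_le_pow_left h1 r
      _ = 4 ^ r * (N + 1 - r) ^ r := mul_pow _ _ _
      _ ≤ 4 ^ r * N.descFactorial r := Nat.mul_le_mul_left _ (Nat.pow_sub_le_descFactorial N r)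
      _ = 4 ^ r * r.factorial * N.choose r := by
          rw [Nat.descFactorial_eq_factorial_mul_choose]; ring
      _ ≤ _ := Nat.mul_le_mul_left _ hc
  have hK : ∀ N, N.choose r ≤ K N r := fun N =>
    single_le_sum (f := fun i => N.choose i) (fun i _ => Nat.zero_le _) (mem_range.mpr (Nat.lt_succ_self r))
  have hK0 : ∀ N, K N 0 = 1 := fun N => by unfold K; simp
  rcases le_total t s with h | h
  · refine key (s + 2 * r) (by omega) (by omega) ?_
    have h0 := hM 0 (Nat.zero_le _)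
    rw [hK0, one_mul, Nat.sub_zero] at h0
    exact (hK _).trans h0
  · refine key (t + 2 * r) (by omega) (by omega) ?_
    have h0 := hM r le_rfl
    rw [Nat.sub_self, hK0, mul_one] at h0
    exact (hK _).trans h0

theorem ch_le_K (N v : ℕ) : N.choose v ≤ K N v :=
  single_le_sum (f := fun i => N.choose i) (fun i _ => Nat.zero_le _) (mem_range.mpr (Nat.lt_succ_self v))

theorem ty_pow {n : ℕ} (hn : 1 ≤ n) (S : Finset (Fin n)) (F : Finset (Finset (Fin n))) (x : ℕ × ℕ) :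
    (ty S F x).card ≤ n ^ (x.1 + x.2) := by
  have hS : S.card ≤ n := by simpa using card_le_univ S
  refine (tyc n S F x).trans ?_
  rw [pow_add]
  refine Nat.mul_le_mul ((Nat.choose_le_pow _ _).trans (Nat.pow_le_pow_left hS _))
    ((Nat.choose_le_pow _ _).trans (Nat.pow_le_pow_left (Nat.sub_le _ _) _))

theorem Cr.symm {n t r : ℕ} {F G : Finset (Finset (Fin n))} (h : Cr n t r F G) : Cr n t r G F := by
  intro B hB A hA
  rw [inter_comm, union_comm]
  exact h A hA B hB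

/-- at a good centre all other types are negligible -/
theorem others (n t r l : ℕ) (hn : 1 ≤ n) (S : Finset (Fin n)) (F G : Finset (Finset (Fin n)))
    (h : Cr n t r F G) (x y : ℕ × ℕ) (hS : S.card = t + (x.1 + y.1)) (hsum : x.1 + y.1 + (x.2 + y.2) = 2 * r)
    (hF : ∀ A ∈ F, (symmDiff A S).card ≤ l) (hy : y.1 + y.2 ≤ l)
    (hbig : (((l + 1) ^ l) ^ 2 + l + 1) * n ^ (2 * r) < n * ((ty S F x).card * (ty S G y).card))
    (z : ℕ × ℕ) (hzx : z ≠ x) :
    n * ((ty S F z).card * (ty S G y).card) ≤ ((l + 1) ^ l) ^ 2 * n ^ (2 * r) := by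
  classical
  rcases (ty S F z).eq_empty_or_nonempty with e | ⟨A1, hA1⟩
  · rw [e]; simp
  have hz : z.1 + z.2 ≤ l := by
    have h1 := hF A1 (mem_ty.mp hA1).1
    rw [card_dev, (mem_ty.mp hA1).2.1, (mem_ty.mp hA1).2.2] at h1
    exact h1
  rcases pair n t r l (x.1 + y.1) (x.2 + y.2) hn hsum S hS F G h z y hz hy with hp | ⟨k, hk1, hk2, ⟨C, hC, hCG⟩, -, -⟩
  · exact hp
  exfalso
  have hk : 1 ≤ k := by
    rcases Nat.eq_zero_or_pos k with h0 | h0
    · exfalso
      apply hzx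
      subst h0
      exact Prod.ext (by omega) (by omega)
    · exact h0
  -- `G_y` lies above `C`
  have hgy : (ty S G y).card ≤ n ^ (y.1 + y.2 - k) := by
    rw [← card_image_of_injective (ty S G y) (dev_inj S)]
    refine Pool.Agent.H5.EG.sup_pow n (y.1 + y.2) k hn C (le_of_eq hC.symm) _ ?_
    intro B' hB'
    obtain ⟨B, hB, rfl⟩ := mem_image.mp hB'
    refine ⟨hCG B hB, ?_⟩
    change (symmDiff B S).card = _
    rw [card_dev, (mem_ty.mp hB).2.1, (mem_ty.mp hB).2.2]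
  have hpos : 0 < (ty S G y).card := by
    rcases Nat.eq_zero_or_pos (ty S G y).card with h0 | h0
    · rw [h0] at hbig; simp at hbig
    · exact h0
  obtain ⟨B1, hB1⟩ := card_pos.mp hpos
  have hkb : k ≤ y.1 + y.2 := by
    have h1 := card_le_card (hCG B1 hB1)
    rw [hC, card_dev, (mem_ty.mp hB1).2.1, (mem_ty.mp hB1).2.2] at h1
    exact h1
  have h3 : n * ((ty S F x).card * (ty S G y).card) ≤ n ^ (2 * r) := by
    calc n * ((ty S F x).card * (ty S G y).card) ≤ n * (n ^ (x.1 + x.2) * n ^ (y.1 + y.2 - k)) :=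
          Nat.mul_le_mul_left _ (Nat.mul_le_mul (ty_pow hn S F x) hgy)
      _ = n ^ (x.1 + x.2 + (y.1 + y.2 - k) + 1) := by ring
      _ ≤ n ^ (2 * r) := Nat.pow_le_pow_right hn (by omega)
  have h4 : 1 * n ^ (2 * r) ≤ (((l + 1) ^ l) ^ 2 + l + 1) * n ^ (2 * r) :=
    Nat.mul_le_mul_right _ (by omega)
  omega

theorem full (r : ℕ) (hr : 1 ≤ r) : ∃ n0 : ℕ, ∀ t s n : ℕ, n = t + s + 2 * r → n0 ≤ t + s →
    ∀ F G : Finset (Finset (Fin n)), Cr n t r F G →
    ∀ M : ℕ, (∀ u ≤ r, K (t + 2 * u) u * K (s + 2 * (r - u)) (r - u) ≤ M) → F.card * G.card ≤ M ^ 2 := by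
  classical
  set l := 8 * r with hl
  set Q := ((l + 1) ^ l) ^ 2 with hQ
  set D := (l + 1) ^ 2 with hD
  set L := (4 ^ r * r.factorial) ^ 2 * D ^ 2 with hL
  set P := D * (Q * L) with hP
  obtain ⟨n1, h1⟩ := num1 r P L
  obtain ⟨n2, h2⟩ := num2 r P L l
  refine ⟨max (max n1 n2) (L * (Q + l + 1) + 1), fun t s n hnd hts F G h M hM => ?_⟩
  have hn1 : n1 ≤ n := by
    have := (le_max_left n1 n2).trans (le_max_left _ (L * (Q + l + 1) + 1))
    omega
  have hn2 : n2 ≤ n := by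
    have := (le_max_right n1 n2).trans (le_max_left _ (L * (Q + l + 1) + 1))
    omega
  have hn3 : L * (Q + l + 1) < n := by
    have := le_max_right (max n1 n2) (L * (Q + l + 1) + 1)
    omega
  have hn : 1 ≤ n := by omega
  by_contra hcon
  rw [not_le] at hcon
  have hFG : 0 < F.card * G.card := lt_of_le_of_lt (Nat.zero_le _) hcon
  have hFn : F.Nonempty := by
    rw [← card_pos]
    rcases Nat.eq_zero_or_pos F.card with h0 | h0
    · rw [h0, zero_mul] at hFG; omega
    · exact h0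
  have hGn : G.Nonempty := by
    rw [← card_pos]
    rcases Nat.eq_zero_or_pos G.card with h0 | h0
    · rw [h0, mul_zero] at hFG; omega
    · exact h0
  obtain ⟨A0, hA0⟩ := hFn
  obtain ⟨B0, hB0⟩ := hGn
  have hAB : ∀ A ∈ F, ∀ B ∈ G, (symmDiff A B).card ≤ 2 * r := by
    intro A hA B hB
    have e1 := card_sd A B
    have e2 := h A hA B hB
    omega
  have dF0 : ∀ A ∈ F, (symmDiff A B0).card ≤ 2 * r := fun A hA => hAB A hA B0 hB0
  have dG0 : ∀ B ∈ G, (symmDiff B B0).card ≤ 4 * r := by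
    intro B hB
    have e1 := sd_tri B A0 B0
    have e2 := hAB A0 hA0 B hB
    rw [symmDiff_comm] at e2
    have e3 := hAB A0 hA0 B0 hB0
    omega
  -- the first centre
  obtain ⟨i, hi⟩ : ∃ i, B0.card = t + i := by
    have e1 := (h A0 hA0 B0 hB0).1
    have e2 : (A0 ∩ B0).card ≤ B0.card := card_le_card inter_subset_right
    exact ⟨B0.card - t, by omega⟩
  obtain ⟨j, hij⟩ : ∃ j, i + j = 2 * r := by
    have e1 := (h A0 hA0 B0 hB0).2
    have e2 : B0.card ≤ (A0 ∪ B0).card := card_le_card subset_union_right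
    exact ⟨2 * r - i, by omega⟩
  obtain ⟨x, hx, hfx⟩ := ty_max l B0 F (fun A hA => (dF0 A hA).trans (by omega))
  obtain ⟨y, hy, hgy⟩ := ty_max l B0 G (fun B hB => (dG0 B hB).trans (by omega))
  have hlow := low_M t s r M hM
  rw [← hnd] at hlow
  have hLf : n ^ (2 * r) ≤ L * ((ty B0 F x).card * (ty B0 G y).card) := by
    calc n ^ (2 * r) = (n ^ r) ^ 2 := by rw [← pow_mul, mul_comm]
      _ ≤ (4 ^ r * r.factorial * M) ^ 2 := Nat.pow_le_pow_left hlow 2
      _ = (4 ^ r * r.factorial) ^ 2 * M ^ 2 := by rw [mul_pow]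
      _ ≤ (4 ^ r * r.factorial) ^ 2 * (F.card * G.card) := Nat.mul_le_mul_left _ hcon.le
      _ ≤ (4 ^ r * r.factorial) ^ 2 * ((D * (ty B0 F x).card) * (D * (ty B0 G y).card)) :=
          Nat.mul_le_mul_left _ (Nat.mul_le_mul hfx hgy)
      _ = L * ((ty B0 F x).card * (ty B0 G y).card) := by rw [hL]; ring
  have big : ∀ w : ℕ, n ^ (2 * r) ≤ L * w → (Q + l + 1) * n ^ (2 * r) < n * w := by
    intro w hw
    have hwpos : 0 < w := by
      rcases Nat.eq_zero_or_pos w with h0 | h0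
      · rw [h0, mul_zero] at hw
        have : 0 < n ^ (2 * r) := Nat.pow_pos (by omega)
        omega
      · exact h0
    calc (Q + l + 1) * n ^ (2 * r) ≤ (Q + l + 1) * (L * w) := Nat.mul_le_mul_left _ hw
      _ = L * (Q + l + 1) * w := by ring
      _ < n * w := Nat.mul_lt_mul_of_pos_right hn3 hwpos
  have hbig0 := big _ hLf
  have pos2 : ∀ u v : ℕ, n ^ (2 * r) ≤ L * (u * v) → 0 < u ∧ 0 < v := by
    intro u v huv
    have : 0 < n ^ (2 * r) := Nat.pow_pos (by omega)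
    constructor
    · rcases Nat.eq_zero_or_pos u with h0 | h0
      · rw [h0, zero_mul, mul_zero] at huv; omega
      · exact h0
    · rcases Nat.eq_zero_or_pos v with h0 | h0
      · rw [h0, mul_zero, mul_zero] at huv; omega
      · exact h0
  obtain ⟨hfp, hgp⟩ := pos2 _ _ hLf
  obtain ⟨A1, hA1⟩ := card_pos.mp hfp
  obtain ⟨B1, hB1⟩ := card_pos.mp hgp
  have hxl : x.1 + x.2 ≤ 2 * r := by
    have e1 := dF0 A1 (mem_ty.mp hA1).1
    rw [card_dev, (mem_ty.mp hA1).2.1, (mem_ty.mp hA1).2.2] at e1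
    exact e1
  have hyl : y.1 + y.2 ≤ 4 * r := by
    have e1 := dG0 B1 (mem_ty.mp hB1).1
    rw [card_dev, (mem_ty.mp hB1).2.1, (mem_ty.mp hB1).2.2] at e1
    exact e1
  rcases pair n t r l i j hn hij B0 hi F G h x y (by omega) (by omega) with
    hp | ⟨k, hk1, hk2, ⟨C, hC, hCG⟩, ⟨E, hE, hEF⟩, hkk⟩
  · have e1 : Q * n ^ (2 * r) ≤ (Q + l + 1) * n ^ (2 * r) := Nat.mul_le_mul_right _ (by omega)
    have e2 : n * ((ty B0 F x).card * (ty B0 G y).card) ≤ Q * n ^ (2 * r) := hp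
    omega
  -- `C = E`
  have hCE : C = E := by
    refine cen n l r (x.1 + x.2) (y.1 + y.2) k hn ((ty B0 F x).image fun A => symmDiff A B0)
      ((ty B0 G y).image fun B => symmDiff B B0) ?_ ?_ (by omega) (by omega) (by omega) C E hC hE ?_ ?_ ?_ ?_
    · intro X hX
      obtain ⟨A, hA, rfl⟩ := mem_image.mp hX
      rw [card_dev, (mem_ty.mp hA).2.1, (mem_ty.mp hA).2.2]
    · intro X hX
      obtain ⟨A, hA, rfl⟩ := mem_image.mp hX
      rw [card_dev, (mem_ty.mp hA).2.1, (mem_ty.mp hA).2.2]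
    · intro X hX
      obtain ⟨A, hA, rfl⟩ := mem_image.mp hX
      exact hCG A hA
    · intro X hX
      obtain ⟨A, hA, rfl⟩ := mem_image.mp hX
      exact hEF A hA
    · intro X hX Y hY
      obtain ⟨A, hA, rfl⟩ := mem_image.mp hX
      obtain ⟨B, hB, rfl⟩ := mem_image.mp hY
      exact hkk A hA B hB
    · rw [card_image_of_injective _ (dev_inj B0), card_image_of_injective _ (dev_inj B0)]
      have e1 : l * n ^ (2 * r) ≤ (Q + l + 1) * n ^ (2 * r) := Nat.mul_le_mul_right _ (by omega)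
      omega
  subst hCE
  obtain ⟨cx1, cx2, hxs⟩ := chg B0 C F x hEF ⟨A1, hA1⟩
  obtain ⟨cy1, cy2, hys⟩ := chg B0 C G y hCG ⟨B1, hB1⟩
  have hcc := chg_card B0 C
  have hck : (C ∩ B0).card + (C \ B0).card = k := by
    rw [card_inter_add_card_sdiff, hC]
  set c1 := (C ∩ B0).card with hc1
  set c2 := (C \ B0).card with hc2
  set S := symmDiff B0 C with hSd
  -- the types at the new centre
  obtain ⟨x1, x2, y1, y2, hx1, hx2, hy1, hy2⟩ : ∃ x1 x2 y1 y2 : ℕ, x1 = x.1 - c1 ∧ x2 = x.2 - c2 ∧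
      y1 = y.1 - c1 ∧ y2 = y.2 - c2 := ⟨_, _, _, _, rfl, rfl, rfl, rfl⟩
  rw [← hx1, ← hx2] at hxs
  rw [← hy1, ← hy2] at hys
  have hS : S.card = t + (x1 + y1) := by omega
  have hsum : x1 + y1 + (x2 + y2) = 2 * r := by omega
  have hk2r : k ≤ 2 * r := by
    have e1 := card_le_card (hEF A1 hA1)
    rw [hC, card_dev, (mem_ty.mp hA1).2.1, (mem_ty.mp hA1).2.2] at e1
    omega
  have dF : ∀ A ∈ F, (symmDiff A S).card ≤ l := by
    intro A hA
    have e1 := sd_tri A B0 S
    have e2 := sd_self B0 C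
    have e3 := dF0 A hA
    rw [← hSd] at e2
    omega
  have dG : ∀ B ∈ G, (symmDiff B S).card ≤ l := by
    intro B hB
    have e1 := sd_tri B B0 S
    have e2 := sd_self B0 C
    have e3 := dG0 B hB
    rw [← hSd] at e2
    omega
  have hLf2 : n ^ (2 * r) ≤ L * ((ty S F (x1, x2)).card * (ty S G (y1, y2)).card) :=
    hLf.trans (Nat.mul_le_mul_left _ (Nat.mul_le_mul (card_le_card hxs) (card_le_card hys)))
  have hbig := big _ hLf2
  obtain ⟨hfp2, hgp2⟩ := pos2 _ _ hLf2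
  have hxa : x1 + x2 ≤ l := by omega
  have hyb : y1 + y2 ≤ l := by omega
  have hS1 : S.card ≤ n := by simpa using card_le_univ S
  -- domination
  have hFd : n * F.card ≤ n * (ty S F (x1, x2)).card + P * n ^ (x1 + x2) := by
    have := dom2 (Om l) D Q L r (x1 + x2) n (fun z => (ty S F z).card) (x1, x2)
      (by rw [mem_Om]; exact ⟨by change x1 ≤ l; omega, by change x2 ≤ l; omega⟩) (ty S G (y1, y2)).card hgp2
      (le_of_eq (Om_card l)) (ty_pow hn S F (x1, x2)) hLf2
      (fun z _ hz => others n t r l hn S F G h (x1, x2) (y1, y2) hS hsum dF hyb hbig z hz)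
    rw [← ty_sum l S F dF] at this
    exact this
  have hGd : n * G.card ≤ n * (ty S G (y1, y2)).card + P * n ^ (y1 + y2) := by
    have := dom2 (Om l) D Q L r (y1 + y2) n (fun z => (ty S G z).card) (y1, y2)
      (by rw [mem_Om]; exact ⟨by change y1 ≤ l; omega, by change y2 ≤ l; omega⟩) (ty S F (x1, x2)).card hfp2
      (le_of_eq (Om_card l)) (ty_pow hn S G (y1, y2)) (by rw [mul_comm (ty S G (y1, y2)).card]; exact hLf2)
      (fun z _ hz => others n t r l hn S G F h.symm (y1, y2) (x1, x2)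
        (by change S.card = t + (y1 + x1); omega) (by change y1 + x1 + (y2 + x2) = 2 * r; omega) dG hxa
        (by rw [mul_comm (ty S G (y1, y2)).card]; exact hbig) z hz)
    rw [← ty_sum l S G dG] at this
    exact this
  have hprod : n ^ 2 * M ^ 2 ≤ (n * (ty S F (x1, x2)).card + P * n ^ (x1 + x2)) *
      (n * (ty S G (y1, y2)).card + P * n ^ (y1 + y2)) := by
    calc n ^ 2 * M ^ 2 ≤ n ^ 2 * (F.card * G.card) := Nat.mul_le_mul_left _ hcon.le
      _ = (n * F.card) * (n * G.card) := by ring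
      _ ≤ _ := Nat.mul_le_mul hFd hGd
  have hfC := tyc n S F (x1, x2)
  have hgC := tyc n S G (y1, y2)
  have hN2 : n - S.card = s + (x2 + y2) := by omega
  have hNN : S.card + (n - S.card) = n := by omega
  have hLN : n ^ (2 * r) ≤ L * (S.card ^ (x1 + y1) * (n - S.card) ^ (x2 + y2)) := by
    refine hLf2.trans (Nat.mul_le_mul_left _ ?_)
    calc (ty S F (x1, x2)).card * (ty S G (y1, y2)).card
        ≤ (S.card ^ x1 * (n - S.card) ^ x2) * (S.card ^ y1 * (n - S.card) ^ y2) :=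
          Nat.mul_le_mul (hfC.trans (Nat.mul_le_mul (Nat.choose_le_pow _ _) (Nat.choose_le_pow _ _)))
            (hgC.trans (Nat.mul_le_mul (Nat.choose_le_pow _ _) (Nat.choose_le_pow _ _)))
      _ = S.card ^ (x1 + y1) * (n - S.card) ^ (x2 + y2) := by ring
  by_cases hb : y1 + 2 ≤ x1 ∨ x1 + 2 ≤ y1 ∨ y2 + 2 ≤ x2 ∨ x2 + 2 ≤ y2
  · have k1 := h1 n hn1 S.card (n - S.card) x1 y1 x2 y2 hNN hsum hLN hb
    have k2 := bal t s r ((x1 + y1) / 2) ((x1 + y1 + 1) / 2) ((x2 + y2) / 2) ((x2 + y2 + 1) / 2) M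
      (by omega) (by omega) (by omega) (by omega) (by omega) hM
    rw [show (x1 + y1) / 2 + (x1 + y1 + 1) / 2 = x1 + y1 by omega,
      show (x2 + y2) / 2 + (x2 + y2 + 1) / 2 = x2 + y2 by omega] at k2
    have k3 : S.card.choose ((x1 + y1) / 2) * S.card.choose ((x1 + y1 + 1) / 2) *
        ((n - S.card).choose ((x2 + y2) / 2) * (n - S.card).choose ((x2 + y2 + 1) / 2)) ≤ M ^ 2 := by
      refine le_trans ?_ k2
      rw [hN2, hS]
      calc (t + (x1 + y1)).choose ((x1 + y1) / 2) * (t + (x1 + y1)).choose ((x1 + y1 + 1) / 2) *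
            ((s + (x2 + y2)).choose ((x2 + y2) / 2) * (s + (x2 + y2)).choose ((x2 + y2 + 1) / 2))
          ≤ K (t + (x1 + y1)) ((x1 + y1) / 2) * K (t + (x1 + y1)) ((x1 + y1 + 1) / 2) *
            (K (s + (x2 + y2)) ((x2 + y2) / 2) * K (s + (x2 + y2)) ((x2 + y2 + 1) / 2)) :=
            Nat.mul_le_mul (Nat.mul_le_mul (ch_le_K _ _) (ch_le_K _ _))
              (Nat.mul_le_mul (ch_le_K _ _) (ch_le_K _ _))
        _ = _ := by ring
    have k4 : (n * (ty S F (x1, x2)).card + P * n ^ (x1 + x2)) *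
        (n * (ty S G (y1, y2)).card + P * n ^ (y1 + y2)) ≤
        (n * (S.card.choose x1 * (n - S.card).choose x2) + P * n ^ (x1 + x2)) *
        (n * (S.card.choose y1 * (n - S.card).choose y2) + P * n ^ (y1 + y2)) :=
      Nat.mul_le_mul (Nat.add_le_add_right (Nat.mul_le_mul_left _ hfC) _)
        (Nat.add_le_add_right (Nat.mul_le_mul_left _ hgC) _)
    have k5 : n ^ 2 * (S.card.choose ((x1 + y1) / 2) * S.card.choose ((x1 + y1 + 1) / 2) *
        ((n - S.card).choose ((x2 + y2) / 2) * (n - S.card).choose ((x2 + y2 + 1) / 2))) ≤ n ^ 2 * M ^ 2 :=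
      Nat.mul_le_mul_left _ k3
    exact absurd (lt_of_lt_of_le (lt_of_le_of_lt (hprod.trans k4) k1) k5) (lt_irrefl _)
  · have hball := bal t s r x1 y1 x2 y2 M hsum (by omega) (by omega) (by omega) (by omega) hM
    have hCC : S.card.choose x1 * (n - S.card).choose x2 * (S.card.choose y1 * (n - S.card).choose y2) ≤
        M ^ 2 := by
      refine le_trans ?_ hball
      rw [hN2, hS]
      exact Nat.mul_le_mul (Nat.mul_le_mul (ch_le_K _ _) (ch_le_K _ _))
        (Nat.mul_le_mul (ch_le_K _ _) (ch_le_K _ _))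
    have hq : n ^ 2 * (S.card.choose x1 * (n - S.card).choose x2 *
        (S.card.choose y1 * (n - S.card).choose y2)) ≤
        (n * (ty S F (x1, x2)).card + P * n ^ (x1 + x2)) *
        (n * (ty S G (y1, y2)).card + P * n ^ (y1 + y2)) :=
      (Nat.mul_le_mul_left _ hCC).trans hprod
    have nx := h2 n hn2 S.card (n - S.card) x1 y1 x2 y2 _ _ hNN hsum hLN hfC hgC hq
    have ny := h2 n hn2 S.card (n - S.card) y1 x1 y2 x2 _ _ hNN (by omega)
      (by rw [add_comm y1 x1, add_comm y2 x2]; exact hLN) hgC hfC (by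
        rw [mul_comm (S.card.choose y1 * (n - S.card).choose y2), mul_comm (n * (ty S G (y1, y2)).card + P * n ^ (y1 + y2))]
        exact hq)
    have s1 := str2 n t r l x1 y1 x2 y2 hsum S hS F G h dF ny
    have s2 := str2 n t r l y1 x1 y2 x2 (by omega) S (by omega) G F h.symm dG nx
    have s3 := Nat.mul_le_mul s1 s2
    rw [hN2, hS] at s3
    exact absurd (lt_of_lt_of_le hcon (s3.trans hball)) (lt_irrefl _)

/-- the value of `m(n,t,s)` at `n = t + s + 2 r` -/
def ev (t s r : ℕ) : ℕ :=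
  (range (r + 1)).sup fun u => K (t + 2 * u) u * K (s + 2 * (r - u)) (r - u)

theorem le_ev (t s r u : ℕ) (hu : u ≤ r) :
    K (t + 2 * u) u * K (s + 2 * (r - u)) (r - u) ≤ ev t s r :=
  le_sup (f := fun u => K (t + 2 * u) u * K (s + 2 * (r - u)) (r - u)) (mem_range.mpr (Nat.lt_succ_of_le hu))

theorem final (r : ℕ) : ∃ N : ℕ, ∀ t s : ℕ, N ≤ t + s →
    mTS (t + s + 2 * r) t s = (range (r + 1)).sup (fun u =>
      (∑ a ∈ range (u + 1), (t + 2 * u).choose a) *
        ∑ b ∈ range (r - u + 1), (s + 2 * (r - u)).choose b) ∧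
    ∀ F G : Finset (Finset (Fin (t + s + 2 * r))), CrossTS (t + s + 2 * r) t s F G →
      F.card * G.card ≤ mTS (t + s + 2 * r) t s ^ 2 := by
  obtain ⟨N, hN⟩ : ∃ N : ℕ, ∀ t s : ℕ, N ≤ t + s →
      ∀ F G : Finset (Finset (Fin (t + s + 2 * r))), Cr (t + s + 2 * r) t r F G →
      F.card * G.card ≤ ev t s r ^ 2 := by
    rcases Nat.eq_zero_or_pos r with hr | hr
    · subst hr
      refine ⟨0, fun t s _ F G h => ?_⟩
      have h1 := Pool.Agent.H5.EG.fixed0 (t + s + 2 * 0) t F G h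
      have h2 : ev t s 0 = 1 := by
        unfold ev K
        simp
      rw [h2]
      simpa using h1
    · obtain ⟨n0, h0⟩ := full r hr
      exact ⟨n0, fun t s hts F G h => h0 t s _ rfl hts F G h _ (fun u hu => le_ev t s r u hu)⟩
  refine ⟨N, fun t s hts => ?_⟩
  have hb : ∀ F G : Finset (Finset (Fin (t + s + 2 * r))), CrossTS (t + s + 2 * r) t s F G →
      F.card * G.card ≤ ev t s r ^ 2 := fun F G hFG => hN t s hts F G
    (fun A hA B hB => ⟨(hFG A hA B hB).1, by have := (hFG A hA B hB).2; omega⟩)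
  have hm : mTS (t + s + 2 * r) t s = ev t s r := by
    refine le_antisymm ?_ ?_
    · obtain ⟨F, hF, hc⟩ := mTS_attained (t + s + 2 * r) t s
      have := hb F F hF
      rw [← pow_two, hc] at this
      exact (Nat.pow_le_pow_iff_left (by norm_num)).mp this
    · unfold ev
      refine Finset.sup_le fun u hu => ?_
      obtain ⟨F, hc, hF⟩ := fam t s r u (Nat.lt_succ_iff.mp (mem_range.mp hu))
      rw [← hc]
      exact le_mTS F fun A hA B hB => ⟨(hF A hA B hB).1, by have := (hF A hA B hB).2; omega⟩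
  exact ⟨hm, fun F G hFG => by rw [hm]; exact hb F G hFG⟩

end Pool.Agent.H5.EH
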