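import Pool.Agent.H5.EH.Idn
import Pool.Agent.H5.EG.Lev

/-!
[EH Pair] PROOF. For `A ∈ F_x`, `B ∈ G_y`: `id1`, `id2` give `x.1 + y.1 ≤ i + |dev A ∩ dev B|`, `x.2 + y.2 ≤ j + |dev A ∩ dev B|`. Let
`k = max (x.1 + y.1 - i) (x.2 + y.2 - j)` (truncated). Apply `lev1`, `lev2` (`H5/EG/Lev.lean`) to the images of `F_x`, `G_y` under the
injective map `A ↦ symmDiff A S` (all of size `a = x.1 + x.2`, `b = y.1 + y.2`) with `tau = k`: `|F_x| ≤ Q n^(a-k)`,
`|G_y| ≤ Q n^(b-k)`, `k ≤ a, b`, and `a + b ≤ 2r + 2k`. If `a + b < 2r + 2k`: first alternative. If `a + b = 2r + 2k`, both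
`x.1 + y.1 = i + k` and `x.2 + y.2 = j + k`; by `lev2` either `n |F_x| ≤ Q n^(a-k)` (first alternative) or there is `C`; the same
for `G_y` and `E`.
-/

set_option autoImplicit false

namespace Pool.Agent.H5.EH

open Finset

private theorem h11_inj {n : ℕ} (S : Finset (Fin n)) (F : Finset (Finset (Fin n))) :
    (F.image fun A => symmDiff A S).card = F.card := by
  apply card_image_of_injective
  intro A B h
  exact symmDiff_left_injective S h

private theorem h11_mem {n : ℕ} {S : Finset (Fin n)} {F : Finset (Finset (Fin n))} {x : ℕ × ℕ} {A : Finset (Fin n)}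
    (h : A ∈ (ty S F x).image fun A => symmDiff A S) : A.card = x.1 + x.2 := by
  rw [mem_image] at h
  obtain ⟨B, hB, rfl⟩ := h
  rw [ty, mem_filter] at hB
  rw [card_dev, hB.2.1, hB.2.2]

theorem pair (n t r l i j : ℕ) (hn : 1 ≤ n) (hij : i + j = 2 * r) (S : Finset (Fin n)) (hS : S.card = t + i)
    (F G : Finset (Finset (Fin n))) (h : Cr n t r F G) (x y : ℕ × ℕ) (hx : x.1 + x.2 ≤ l) (hy : y.1 + y.2 ≤ l) :
    n * ((ty S F x).card * (ty S G y).card) ≤ ((l + 1) ^ l) ^ 2 * n ^ (2 * r) ∨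
      ∃ k : ℕ, x.1 + y.1 = i + k ∧ x.2 + y.2 = j + k ∧
        (∃ C : Finset (Fin n), C.card = k ∧ ∀ B ∈ ty S G y, C ⊆ symmDiff B S) ∧
        (∃ E : Finset (Fin n), E.card = k ∧ ∀ A ∈ ty S F x, E ⊆ symmDiff A S) ∧
        ∀ A ∈ ty S F x, ∀ B ∈ ty S G y, k ≤ (symmDiff A S ∩ symmDiff B S).card := by
  classical
  rcases (ty S F x).eq_empty_or_nonempty with hFe | hFn
  · left
    rw [hFe, card_empty, zero_mul, mul_zero]
    exact Nat.zero_le _
  rcases (ty S G y).eq_empty_or_nonempty with hGe | hGn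
  · left
    rw [hGe, card_empty, mul_zero, mul_zero]
    exact Nat.zero_le _
  obtain ⟨k, hk⟩ : ∃ k : ℕ, k = max (x.1 + y.1 - i) (x.2 + y.2 - j) := ⟨_, rfl⟩
  have hk1 : x.1 + y.1 ≤ i + k := by
    have := le_max_left (x.1 + y.1 - i) (x.2 + y.2 - j)
    omega
  have hk2 : x.2 + y.2 ≤ j + k := by
    have := le_max_right (x.1 + y.1 - i) (x.2 + y.2 - j)
    omega
  have hd : ∀ A ∈ ty S F x, ∀ B ∈ ty S G y, k ≤ (symmDiff A S ∩ symmDiff B S).card := by
    intro A hA B hB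
    have hA' := hA
    have hB' := hB
    rw [ty, mem_filter] at hA' hB'
    obtain ⟨c1, c2⟩ := h A hA'.1 B hB'.1
    have e1 := id1 S A B
    have e2 := id2 S A B
    rw [hA'.2.1, hB'.2.1, hS] at e1
    rw [hA'.2.2, hB'.2.2, hS] at e2
    rw [hk, max_le_iff]
    constructor <;> omega
  obtain ⟨Q, hQ⟩ : ∃ Q : ℕ, Q = (l + 1) ^ l := ⟨_, rfl⟩
  obtain ⟨F', hF'⟩ : ∃ F' : Finset (Finset (Fin n)), F' = (ty S F x).image fun A => symmDiff A S := ⟨_, rfl⟩
  obtain ⟨G', hG'⟩ : ∃ G' : Finset (Finset (Fin n)), G' = (ty S G y).image fun A => symmDiff A S := ⟨_, rfl⟩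
  have cF : F'.card = (ty S F x).card := by rw [hF']; exact h11_inj S _
  have cG : G'.card = (ty S G y).card := by rw [hG']; exact h11_inj S _
  have mF : ∀ A ∈ F', A.card = x.1 + x.2 := fun A hA => h11_mem (S := S) (F := F) (hF' ▸ hA)
  have mG : ∀ B ∈ G', B.card = y.1 + y.2 := fun B hB => h11_mem (S := S) (F := G) (hG' ▸ hB)
  have nF : F'.Nonempty := by rw [hF']; exact hFn.image _
  have nG : G'.Nonempty := by rw [hG']; exact hGn.image _
  have hFG : ∀ A ∈ F', ∀ B ∈ G', k ≤ (A ∩ B).card := by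
    intro A hA B hB
    rw [hF', mem_image] at hA
    rw [hG', mem_image] at hB
    obtain ⟨A0, hA0, rfl⟩ := hA
    obtain ⟨B0, hB0, rfl⟩ := hB
    exact hd A0 hA0 B0 hB0
  have hGF : ∀ B ∈ G', ∀ A ∈ F', k ≤ (B ∩ A).card := by
    intro B hB A hA
    rw [inter_comm]
    exact hFG A hA B hB
  have hka : k ≤ x.1 + x.2 := by
    obtain ⟨A, hA⟩ := nF
    obtain ⟨B, hB⟩ := nG
    rw [← mF A hA]
    exact (hFG A hA B hB).trans (card_le_card inter_subset_left)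
  have hkb : k ≤ y.1 + y.2 := by
    obtain ⟨A, hA⟩ := nF
    obtain ⟨B, hB⟩ := nG
    rw [← mG B hB]
    exact (hFG A hA B hB).trans (card_le_card inter_subset_right)
  have l1 := EG.lev1 n l k (x.1 + x.2) hn F' G' (fun B hB => by rw [mG B hB]; exact hy) mF hx nG hFG
  have l2 := EG.lev1 n l k (y.1 + y.2) hn G' F' (fun B hB => by rw [mF B hB]; exact hx) mG hy nF hGF
  rw [← hQ] at l1 l2 ⊢
  rw [← cF, ← cG]
  rcases Nat.lt_or_ge (x.1 + x.2 + (y.1 + y.2)) (2 * r + 2 * k) with hlt | hge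
  · left
    calc n * (F'.card * G'.card) ≤ n * ((Q * n ^ (x.1 + x.2 - k)) * (Q * n ^ (y.1 + y.2 - k))) :=
          Nat.mul_le_mul_left _ (Nat.mul_le_mul l1 l2)
      _ = Q ^ 2 * n ^ (x.1 + x.2 - k + (y.1 + y.2 - k) + 1) := by ring
      _ ≤ Q ^ 2 * n ^ (2 * r) := Nat.mul_le_mul_left _ (Nat.pow_le_pow_right hn (by omega))
  · have hexp : x.1 + x.2 - k + (y.1 + y.2 - k) = 2 * r := by omega
    rcases EG.lev2 n l k (x.1 + x.2) hn F' G' (fun B hB => by rw [mG B hB]; exact hy) mF hx nG hFG with l3 | ⟨C, hC1, hC2⟩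
    · left
      rw [← hQ] at l3
      calc n * (F'.card * G'.card) = (n * F'.card) * G'.card := by ring
        _ ≤ (Q * n ^ (x.1 + x.2 - k)) * (Q * n ^ (y.1 + y.2 - k)) := Nat.mul_le_mul l3 l2
        _ = Q ^ 2 * n ^ (x.1 + x.2 - k + (y.1 + y.2 - k)) := by ring
        _ = Q ^ 2 * n ^ (2 * r) := by rw [hexp]
    rcases EG.lev2 n l k (y.1 + y.2) hn G' F' (fun B hB => by rw [mF B hB]; exact hx) mG hy nF hGF with l3 | ⟨E, hE1, hE2⟩
    · left
      rw [← hQ] at l3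
      calc n * (F'.card * G'.card) = F'.card * (n * G'.card) := by ring
        _ ≤ (Q * n ^ (x.1 + x.2 - k)) * (Q * n ^ (y.1 + y.2 - k)) := Nat.mul_le_mul l1 l3
        _ = Q ^ 2 * n ^ (x.1 + x.2 - k + (y.1 + y.2 - k)) := by ring
        _ = Q ^ 2 * n ^ (2 * r) := by rw [hexp]
    right
    refine ⟨k, by omega, by omega, ⟨C, hC1, fun B hB => hC2 _ ?_⟩, ⟨E, hE1, fun A hA => hE2 _ ?_⟩, hd⟩
    · rw [hG', mem_image]
      exact ⟨B, hB, rfl⟩
    · rw [hF', mem_image]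
      exact ⟨A, hA, rfl⟩

end Pool.Agent.H5.EH
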